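import Pool.Agent.W855.GDtools2
import Mathlib.Analysis.SpecialFunctions.Exp

/-!
# Random truncation of a transversal design

In an orthogonal array with `N` positions choose in every position `i` a random set of `x i`
symbols.  If the expected number `μ = ∑ x i / m` of chosen entries of a word is large, then with
positive probability every word has between `(1 - 2 δ) μ` and `(1 + 2 δ) μ` chosen entries.
-/

set_option autoImplicit false

namespace Pool.Agent.W855

open Finset H108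

/-- number of chosen entries -/
def cnt {N m : ℕ} (S : Fin N → Finset (Fin m)) (w : Fin N → Fin m) : ℕ :=
  (univ.filter (fun i => w i ∈ S i)).card

theorem sum_powersetCard_ite {m x : ℕ} (hx : x ≤ m) (c : Fin m) (a : ℝ) :
    ∑ s ∈ powersetCard x (univ : Finset (Fin m)), (if c ∈ s then a else 1) =
      (m.choose x : ℝ) * (1 + (a - 1) * ((x : ℝ) / m)) := by
  classical
  obtain ⟨m, rfl⟩ : ∃ m', m = m' + 1 := ⟨m - 1, by have := c.2; omega⟩
  rcases x with _ | x
  · simp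
  · have hun : (univ : Finset (Fin (m + 1))) = insert c (univ.erase c) := by
      rw [insert_erase (mem_univ c)]
    have hc : c ∉ (univ : Finset (Fin (m + 1))).erase c := notMem_erase _ _
    rw [hun, powersetCard_succ_insert hc, sum_union]
    · have h1 : ∑ s ∈ powersetCard (x + 1) ((univ : Finset (Fin (m + 1))).erase c),
          (if c ∈ s then a else 1) = (m.choose (x + 1) : ℝ) := by
        rw [sum_congr rfl (g := fun _ => (1 : ℝ))]
        · rw [sum_const, card_powersetCard, card_erase_of_mem (mem_univ c)]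
          simp
        · intro s hs
          rw [mem_powersetCard] at hs
          rw [if_neg (fun h => hc (hs.1 h))]
      have h2 : ∑ s ∈ (powersetCard x ((univ : Finset (Fin (m + 1))).erase c)).image (insert c),
          (if c ∈ s then a else 1) = (m.choose x : ℝ) * a := by
        rw [sum_image]
        · rw [sum_congr rfl (g := fun _ => a)]
          · rw [sum_const, card_powersetCard, card_erase_of_mem (mem_univ c)]
            simp
          · intro s hs
            rw [if_pos (mem_insert_self _ _)]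
        · intro s hs t ht hst
          rw [mem_coe, mem_powersetCard] at hs ht
          have hs' : c ∉ s := fun h => hc (hs.1 h)
          have ht' : c ∉ t := fun h => hc (ht.1 h)
          rw [← erase_insert hs', ← erase_insert ht', hst]
      rw [h1, h2]
      have h3 : ((m + 1).choose (x + 1) : ℝ) = m.choose x + m.choose (x + 1) := by
        rw [Nat.choose_succ_succ]; push_cast; rfl
      have h4 : ((m : ℝ) + 1) * m.choose x = (m + 1).choose (x + 1) * (x + 1) := by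
        exact_mod_cast Nat.add_one_mul_choose_eq m x
      have h5 : ((m : ℝ) + 1) ≠ 0 := by positivity
      have h6 : ((m + 1).choose (x + 1) : ℝ) * (((x + 1 : ℕ) : ℝ) / ((m + 1 : ℕ) : ℝ)) =
          m.choose x := by
        push_cast
        field_simp
        rw [← h4]
      calc (m.choose (x + 1) : ℝ) + m.choose x * a
          = ((m + 1).choose (x + 1) : ℝ) + (a - 1) * m.choose x := by rw [h3]; ring
        _ = _ := by rw [← h6]; ring
    · rw [disjoint_left]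
      intro s hs ht
      rw [mem_powersetCard] at hs
      rw [mem_image] at ht
      obtain ⟨t, -, rfl⟩ := ht
      exact hc (hs.1 (mem_insert_self _ _))

theorem sum_pow_cnt {N m : ℕ} (x : Fin N → ℕ) (hx : ∀ i, x i ≤ m) (w : Fin N → Fin m) (a : ℝ)
    (ha : 0 < a) :
    ∑ S ∈ Fintype.piFinset (fun i => powersetCard (x i) (univ : Finset (Fin m))),
      a ^ cnt S w ≤
      ((Fintype.piFinset (fun i => powersetCard (x i) (univ : Finset (Fin m)))).card : ℝ) *
        Real.exp ((a - 1) * ((∑ i, x i : ℕ) / m)) := by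
  classical
  have h1 : ∀ S : Fin N → Finset (Fin m), a ^ cnt S w = ∏ i, (if w i ∈ S i then a else 1) := by
    intro S
    rw [prod_ite]
    simp [cnt]
  rw [sum_congr rfl (fun S _ => h1 S)]
  rw [← prod_univ_sum (fun i => powersetCard (x i) (univ : Finset (Fin m)))
    (fun i s => if w i ∈ s then a else 1)]
  rw [Fintype.card_piFinset]
  push_cast
  rw [sum_div, mul_sum, Real.exp_sum, ← prod_mul_distrib]
  apply prod_le_prod
  · intro i _
    apply sum_nonneg
    intro s _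
    split_ifs <;> positivity
  · intro i _
    rw [sum_powersetCard_ite (hx i), card_powersetCard, card_univ, Fintype.card_fin]
    apply mul_le_mul_of_nonneg_left _ (by positivity)
    have := Real.add_one_le_exp ((a - 1) * ((x i : ℝ) / m))
    linarith

theorem exists_balanced {N m : ℕ} (W : Finset (Fin N → Fin m)) (x : Fin N → ℕ)
    (hx : ∀ i, x i ≤ m) (δ : ℝ) (hδ0 : 0 < δ) (hδ1 : δ ≤ 1 / 2) (lo hi : ℕ) (μ : ℝ)
    (hμ : μ = (∑ i, x i : ℕ) / m) (hlo : (lo : ℝ) ≤ (1 - 2 * δ) * μ)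
    (hhi : (1 + 2 * δ) * μ ≤ hi) (hμ0 : 0 ≤ μ)
    (hW : 2 * (W.card : ℝ) < Real.exp (δ ^ 2 / 2 * μ)) :
    ∃ S : Fin N → Finset (Fin m), (∀ i, (S i).card = x i) ∧
      ∀ w ∈ W, lo < cnt S w ∧ cnt S w < hi := by
  classical
  set Ω := Fintype.piFinset (fun i => powersetCard (x i) (univ : Finset (Fin m))) with hΩ
  have hΩpos : 0 < (Ω.card : ℝ) := by
    rw [hΩ, Fintype.card_piFinset]
    push_cast
    apply prod_pos
    intro i _
    rw [card_powersetCard, card_univ, Fintype.card_fin]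
    exact_mod_cast Nat.choose_pos (hx i)
  have ha : (0 : ℝ) < 1 + δ := by linarith
  have hb : (0 : ℝ) < 1 - δ := by linarith
  -- the two tails
  have hup : ((1 + δ) ^ hi)⁻¹ * Real.exp (δ * μ) ≤ Real.exp (-(δ ^ 2 / 2 * μ)) := by
    have h1 : (1 + δ)⁻¹ ≤ Real.exp (-(δ / (1 + δ))) := by
      have := Real.add_one_le_exp (-(δ / (1 + δ)))
      have e : -(δ / (1 + δ)) + 1 = (1 + δ)⁻¹ := by field_simp; ring
      linarith
    have h2 : ((1 + δ) ^ hi)⁻¹ ≤ Real.exp (-(δ / (1 + δ)) * hi) := by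
      rw [← inv_pow, mul_comm, Real.exp_nat_mul]
      exact pow_le_pow_left₀ (by positivity) h1 hi
    calc ((1 + δ) ^ hi)⁻¹ * Real.exp (δ * μ)
        ≤ Real.exp (-(δ / (1 + δ)) * hi) * Real.exp (δ * μ) := by gcongr
      _ = Real.exp (-(δ / (1 + δ)) * hi + δ * μ) := by rw [Real.exp_add]
      _ ≤ _ := by
          apply Real.exp_le_exp.2
          have h3 : δ / (1 + δ) * ((1 + 2 * δ) * μ) ≤ δ / (1 + δ) * hi := by
            apply mul_le_mul_of_nonneg_left hhi (by positivity)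
          have h4 : δ * μ + δ ^ 2 / 2 * μ ≤ δ / (1 + δ) * ((1 + 2 * δ) * μ) := by
            have h5 : δ + δ ^ 2 / 2 ≤ δ / (1 + δ) * (1 + 2 * δ) := by
              rw [div_mul_eq_mul_div, le_div_iff₀ ha]
              nlinarith [mul_pos hδ0 hδ0, mul_pos (mul_pos hδ0 hδ0) hδ0]
            calc δ * μ + δ ^ 2 / 2 * μ = (δ + δ ^ 2 / 2) * μ := by ring
              _ ≤ (δ / (1 + δ) * (1 + 2 * δ)) * μ := mul_le_mul_of_nonneg_right h5 hμ0
              _ = _ := by ring
          linarith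
  have hdown : ((1 - δ) ^ lo)⁻¹ * Real.exp (-δ * μ) ≤ Real.exp (-(δ ^ 2 / 2 * μ)) := by
    have h1 : (1 - δ)⁻¹ ≤ Real.exp (δ / (1 - δ)) := by
      have := Real.add_one_le_exp (δ / (1 - δ))
      have e : δ / (1 - δ) + 1 = (1 - δ)⁻¹ := by field_simp; ring
      linarith
    have h2 : ((1 - δ) ^ lo)⁻¹ ≤ Real.exp ((δ / (1 - δ)) * lo) := by
      rw [← inv_pow, mul_comm, Real.exp_nat_mul]
      exact pow_le_pow_left₀ (by positivity) h1 lo
    calc ((1 - δ) ^ lo)⁻¹ * Real.exp (-δ * μ)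
        ≤ Real.exp ((δ / (1 - δ)) * lo) * Real.exp (-δ * μ) := by gcongr
      _ = Real.exp ((δ / (1 - δ)) * lo + -δ * μ) := by rw [Real.exp_add]
      _ ≤ _ := by
          apply Real.exp_le_exp.2
          have h3 : δ / (1 - δ) * lo ≤ δ / (1 - δ) * ((1 - 2 * δ) * μ) := by
            apply mul_le_mul_of_nonneg_left hlo (by positivity)
          have h4 : δ / (1 - δ) * ((1 - 2 * δ) * μ) ≤ δ * μ - δ ^ 2 / 2 * μ := by
            have h5 : δ / (1 - δ) * (1 - 2 * δ) ≤ δ - δ ^ 2 / 2 := by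
              rw [div_mul_eq_mul_div, div_le_iff₀ hb]
              nlinarith [mul_pos hδ0 hδ0, mul_pos (mul_pos hδ0 hδ0) hδ0]
            calc δ / (1 - δ) * ((1 - 2 * δ) * μ) = (δ / (1 - δ) * (1 - 2 * δ)) * μ := by ring
              _ ≤ (δ - δ ^ 2 / 2) * μ := mul_le_mul_of_nonneg_right h5 hμ0
              _ = _ := by ring
          linarith
  -- the weight
  let F : (Fin N → Finset (Fin m)) → ℝ := fun S =>
    ∑ w ∈ W, (((1 + δ) ^ hi)⁻¹ * (1 + δ) ^ cnt S w + ((1 - δ) ^ lo)⁻¹ * (1 - δ) ^ cnt S w)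
  have hsum : ∑ S ∈ Ω, F S < ∑ S ∈ Ω, (1 : ℝ) := by
    rw [sum_comm]
    have h1 : ∀ w ∈ W, ∑ S ∈ Ω, (((1 + δ) ^ hi)⁻¹ * (1 + δ) ^ cnt S w +
        ((1 - δ) ^ lo)⁻¹ * (1 - δ) ^ cnt S w) ≤
        (Ω.card : ℝ) * (2 * Real.exp (-(δ ^ 2 / 2 * μ))) := by
      intro w _
      rw [sum_add_distrib, ← mul_sum, ← mul_sum]
      have h2 := sum_pow_cnt x hx w (1 + δ) ha
      have h3 := sum_pow_cnt x hx w (1 - δ) hb
      rw [← hΩ, ← hμ] at h2 h3
      have e1 : 1 + δ - 1 = δ := by ring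
      have e2 : 1 - δ - 1 = -δ := by ring
      rw [e1] at h2
      rw [e2] at h3
      have h4 : ((1 + δ) ^ hi)⁻¹ * ∑ S ∈ Ω, (1 + δ) ^ cnt S w ≤
          (Ω.card : ℝ) * Real.exp (-(δ ^ 2 / 2 * μ)) := by
        calc ((1 + δ) ^ hi)⁻¹ * ∑ S ∈ Ω, (1 + δ) ^ cnt S w
            ≤ ((1 + δ) ^ hi)⁻¹ * ((Ω.card : ℝ) * Real.exp (δ * μ)) := by gcongr
          _ = (Ω.card : ℝ) * (((1 + δ) ^ hi)⁻¹ * Real.exp (δ * μ)) := by ring
          _ ≤ _ := by gcongr
      have h5 : ((1 - δ) ^ lo)⁻¹ * ∑ S ∈ Ω, (1 - δ) ^ cnt S w ≤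
          (Ω.card : ℝ) * Real.exp (-(δ ^ 2 / 2 * μ)) := by
        calc ((1 - δ) ^ lo)⁻¹ * ∑ S ∈ Ω, (1 - δ) ^ cnt S w
            ≤ ((1 - δ) ^ lo)⁻¹ * ((Ω.card : ℝ) * Real.exp (-δ * μ)) := by gcongr
          _ = (Ω.card : ℝ) * (((1 - δ) ^ lo)⁻¹ * Real.exp (-δ * μ)) := by ring
          _ ≤ _ := by gcongr
      linarith
    refine lt_of_le_of_lt (sum_le_sum h1) ?_
    rw [sum_const, sum_const, nsmul_eq_mul, nsmul_eq_mul, mul_one]
    have h6 : (W.card : ℝ) * (2 * Real.exp (-(δ ^ 2 / 2 * μ))) < 1 := by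
      have h7 : Real.exp (δ ^ 2 / 2 * μ) * Real.exp (-(δ ^ 2 / 2 * μ)) = 1 := by
        rw [← Real.exp_add]; simp
      calc (W.card : ℝ) * (2 * Real.exp (-(δ ^ 2 / 2 * μ)))
          = (2 * (W.card : ℝ)) * Real.exp (-(δ ^ 2 / 2 * μ)) := by ring
        _ < Real.exp (δ ^ 2 / 2 * μ) * Real.exp (-(δ ^ 2 / 2 * μ)) := by
            apply mul_lt_mul_of_pos_right hW (Real.exp_pos _)
        _ = 1 := h7
    calc (W.card : ℝ) * ((Ω.card : ℝ) * (2 * Real.exp (-(δ ^ 2 / 2 * μ))))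
        = (Ω.card : ℝ) * ((W.card : ℝ) * (2 * Real.exp (-(δ ^ 2 / 2 * μ)))) := by ring
      _ < (Ω.card : ℝ) * 1 := mul_lt_mul_of_pos_left h6 hΩpos
      _ = _ := mul_one _
  obtain ⟨S, hS, hFS⟩ := exists_lt_of_sum_lt hsum
  refine ⟨S, ?_, ?_⟩
  · intro i
    have := (Fintype.mem_piFinset.1 hS) i
    exact (mem_powersetCard.1 this).2
  · intro w hw
    have hterm : ((1 + δ) ^ hi)⁻¹ * (1 + δ) ^ cnt S w + ((1 - δ) ^ lo)⁻¹ * (1 - δ) ^ cnt S w
        < 1 := by
      refine lt_of_le_of_lt ?_ hFS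
      exact single_le_sum (f := fun w => ((1 + δ) ^ hi)⁻¹ * (1 + δ) ^ cnt S w +
        ((1 - δ) ^ lo)⁻¹ * (1 - δ) ^ cnt S w) (fun _ _ => by positivity) hw
    have p1 : 0 < ((1 + δ) ^ hi)⁻¹ * (1 + δ) ^ cnt S w := by positivity
    have p2 : 0 < ((1 - δ) ^ lo)⁻¹ * (1 - δ) ^ cnt S w := by positivity
    constructor
    · by_contra hcon
      push Not at hcon
      have h1 : (1 - δ) ^ lo ≤ (1 - δ) ^ cnt S w :=
        pow_le_pow_of_le_one hb.le (by linarith) hcon
      have h2 : 1 ≤ ((1 - δ) ^ lo)⁻¹ * (1 - δ) ^ cnt S w := by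
        rw [inv_mul_eq_div, one_le_div (by positivity)]
        exact h1
      linarith
    · by_contra hcon
      push Not at hcon
      have h1 : (1 + δ) ^ hi ≤ (1 + δ) ^ cnt S w :=
        pow_le_pow_right₀ (by linarith) hcon
      have h2 : 1 ≤ ((1 + δ) ^ hi)⁻¹ * (1 + δ) ^ cnt S w := by
        rw [inv_mul_eq_div, one_le_div (by positivity)]
        exact h1
      linarith

/-- an orthogonal array has at most `m ^ 2` words -/
theorem oa_card {N m : ℕ} (hN : 2 ≤ N) {W : Set (Fin N → Fin m)} (hW : IsOA W) :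
    ∃ W' : Finset (Fin N → Fin m), (∀ w, w ∈ W' ↔ w ∈ W) ∧ W'.card ≤ m ^ 2 := by
  classical
  refine ⟨W.toFinset, fun w => by simp, ?_⟩
  let i0 : Fin N := ⟨0, by omega⟩
  let i1 : Fin N := ⟨1, by omega⟩
  have h : W.toFinset.card ≤ (univ : Finset (Fin m × Fin m)).card := by
    apply card_le_card_of_injOn (fun w => (w i0, w i1)) (fun _ _ => mem_coe.2 (mem_univ _))
    intro w hw w' hw' hww
    have hne : i0 ≠ i1 := by simp [i0, i1]
    obtain ⟨v, -, hv⟩ := hW i0 i1 hne (w i0) (w i1)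
    have hw2 : w ∈ W := by simpa using hw
    have hw2' : w' ∈ W := by simpa using hw'
    simp only [Prod.mk.injEq] at hww
    rw [hv w ⟨hw2, rfl, rfl⟩, hv w' ⟨hw2', hww.1.symm, hww.2.symm⟩]
  simpa [sq] using h

/-- random truncation of a transversal design -/
theorem ig_balanced {k g N m : ℕ} (hO : OA N m) (hN : 2 ≤ N) (x : Fin N → ℕ)
    (hx : ∀ i, x i ≤ m) (δ : ℝ) (hδ0 : 0 < δ) (hδ1 : δ ≤ 1 / 2) (lo hi : ℕ) (μ : ℝ)
    (hμ : μ = (∑ i, x i : ℕ) / m) (hlo : (lo : ℝ) ≤ (1 - 2 * δ) * μ)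
    (hhi : (1 + 2 * δ) * μ ≤ hi) (hμ0 : 0 ≤ μ)
    (hm : 2 * (m : ℝ) ^ 2 < Real.exp (δ ^ 2 / 2 * μ))
    (hE : ∀ u, lo ≤ u → u ≤ hi → IG {k} g u 0) (hEx : ∀ i, IG {k} g (x i) 0) :
    IG {k} g (∑ i, x i) 0 := by
  classical
  obtain ⟨W, hW⟩ := hO
  obtain ⟨W', hW', hWc⟩ := oa_card hN hW
  obtain ⟨S, hS1, hS2⟩ := exists_balanced W' x hx δ hδ0 hδ1 lo hi μ hμ hlo hhi hμ0 (by
    refine lt_of_le_of_lt ?_ hm
    have : (W'.card : ℝ) ≤ (m : ℝ) ^ 2 := by exact_mod_cast hWc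
    linarith)
  have hcard : ∀ i, Nat.card {v // v ∈ S i} = x i := by
    intro i
    rw [Nat.card_eq_fintype_card, Fintype.card_coe, hS1]
  have hsum : (∑ i, Nat.card {v // v ∈ S i}) = ∑ i, x i := sum_congr rfl (fun i _ => hcard i)
  rw [← hsum]
  refine ig_oa hW (fun i v => v ∈ S i) {u | lo ≤ u ∧ u ≤ hi} ?_ ?_ ?_
  · intro w hw T hT
    have hT' : T = univ.filter (fun i => w i ∈ S i) := by
      ext i
      simp [hT]
    have := hS2 w ((hW' w).2 hw)
    rw [cnt, ← hT'] at this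
    exact ⟨this.1.le, this.2.le⟩
  · rintro u ⟨h1, h2⟩
    exact hE u h1 h2
  · intro i
    rw [hcard]
    exact hEx i

end Pool.Agent.W855
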