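import Pool.Agent.W855.OA

/-!
# Recursive constructions from orthogonal arrays
-/

set_option autoImplicit false

namespace Pool.Agent.W855

open Finset H108

/-- truncated transversal design -/
theorem gd_of_oa {N : ℕ} {X : Type} {W : Set (Fin N → X)} (hW : IsOA W) (keep : Fin N → X → Prop)
    (K : Set ℕ)
    (hK : ∀ w ∈ W, ∀ s : Finset (Fin N), (∀ i, i ∈ s ↔ keep i (w i)) → s.card ∈ K) :
    GD K (fun p : {p : Fin N × X // keep p.1 p.2} => p.1.1) := by
  classical
  let F : (Fin N → X) → Finset (Fin N) := fun w => univ.filter (fun i => keep i (w i))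
  let f : (w : Fin N → X) → {i // i ∈ F w} → {p : Fin N × X // keep p.1 p.2} :=
    fun w i => ⟨(i.1, w i.1), (mem_filter.1 i.2).2⟩
  have hf : ∀ w, Function.Injective (f w) := by
    intro w i j hij
    have : (i.1, w i.1) = (j.1, w j.1) := congrArg Subtype.val hij
    exact Subtype.ext (Prod.ext_iff.1 this).1
  have hmem : ∀ w (p : {p : Fin N × X // keep p.1 p.2}),
      p ∈ (F w).attach.map ⟨f w, hf w⟩ ↔ w p.1.1 = p.1.2 := by
    rintro w ⟨⟨i, x⟩, hp⟩
    simp only [mem_map, mem_attach, Function.Embedding.coeFn_mk, true_and, Subtype.exists]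
    constructor
    · rintro ⟨j, hj, h⟩
      have h1 : (j, w j) = (i, x) := congrArg Subtype.val h
      obtain ⟨rfl, rfl⟩ := Prod.ext_iff.1 h1
      rfl
    · rintro rfl
      exact ⟨i, mem_filter.2 ⟨mem_univ _, hp⟩, rfl⟩
  refine ⟨{b | ∃ w ∈ W, b = (F w).attach.map ⟨f w, hf w⟩}, ?_, ?_⟩
  · rintro b ⟨w, hw, rfl⟩
    refine ⟨?_, ?_⟩
    · rw [card_map, card_attach]
      exact hK w hw _ (fun i => by simp [F])
    · intro p hp q hq hpq
      rw [mem_coe, hmem] at hp hq
      apply Subtype.ext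
      apply Prod.ext
      · exact hpq
      · rw [← hp, ← hq]
        exact congrArg w hpq
  · rintro p q hpq
    obtain ⟨w, ⟨hw, h1, h2⟩, hu⟩ := hW p.1.1 q.1.1 hpq p.1.2 q.1.2
    refine ⟨(F w).attach.map ⟨f w, hf w⟩, ⟨⟨w, hw, rfl⟩, (hmem w p).2 h1, (hmem w q).2 h2⟩, ?_⟩
    rintro b ⟨⟨w', hw', rfl⟩, h3, h4⟩
    rw [hmem] at h3 h4
    rw [hu w' ⟨hw', h3, h4⟩]

/-- the fibre of the part map of a truncated transversal design -/
def fibEquiv {N : ℕ} {X : Type} (keep : Fin N → X → Prop) (i : Fin N) :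
    {y : {p : Fin N × X // keep p.1 p.2} // y.1.1 = i} ≃ {x // keep i x} where
  toFun y := ⟨y.1.1.2, by
    have h1 := y.1.2
    have h2 := y.2
    rw [h2] at h1
    exact h1⟩
  invFun x := ⟨⟨(i, x.1), x.2⟩, rfl⟩
  left_inv := by
    rintro ⟨⟨⟨j, x⟩, h⟩, rfl⟩
    rfl
  right_inv := by
    rintro ⟨x, h⟩
    rfl

theorem card_trunc {N : ℕ} {X : Type} [Finite X] (keep : Fin N → X → Prop) :
    Nat.card {p : Fin N × X // keep p.1 p.2} = ∑ i, Nat.card {x // keep i x} := by
  classical
  have e : {p : Fin N × X // keep p.1 p.2} ≃ (Σ i, {x // keep i x}) :=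
    { toFun := fun p => ⟨p.1.1, ⟨p.1.2, p.2⟩⟩
      invFun := fun s => ⟨(s.1, s.2.1), s.2.2⟩
      left_inv := fun p => rfl
      right_inv := fun s => rfl }
  rw [Nat.card_congr e, Nat.card_sigma]

/-- filling in a truncated transversal design -/
theorem ig_oa {k g N : ℕ} {X : Type} [Finite X] {W : Set (Fin N → X)} (hW : IsOA W)
    (keep : Fin N → X → Prop) (K : Set ℕ)
    (hK : ∀ w ∈ W, ∀ s : Finset (Fin N), (∀ i, i ∈ s ↔ keep i (w i)) → s.card ∈ K)
    (hb : ∀ u ∈ K, IG {k} g u 0) (hf : ∀ i, IG {k} g (Nat.card {x // keep i x}) 0) :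
    IG {k} g (∑ i, Nat.card {x // keep i x}) 0 := by
  have := ig_master (k := k) (g := g) (c := 1) (w := 0) (K0 := K)
    (fun p : {p : Fin N × X // keep p.1 p.2} => p.1.1) (gd_of_oa hW keep K hK)
    (by simpa using hb) (by
      intro i
      rw [Nat.card_congr (fibEquiv keep i), one_mul]
      exact hf i)
  rwa [one_mul, card_trunc] at this

/-- the same with the group `i0` as a hole -/
theorem ig_oa_hole {k g N : ℕ} {X : Type} [Finite X] {W : Set (Fin N → X)} (hW : IsOA W)
    (keep : Fin N → X → Prop) (K : Set ℕ) (i0 : Fin N)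
    (hK : ∀ w ∈ W, ∀ s : Finset (Fin N), (∀ i, i ∈ s ↔ keep i (w i)) → s.card ∈ K)
    (hb : ∀ u ∈ K, IG {k} g u 0) (hf : ∀ i, i ≠ i0 → IG {k} g (Nat.card {x // keep i x}) 0) :
    IG {k} g ((∑ i, Nat.card {x // keep i x}) - Nat.card {x // keep i0 x})
      (g * Nat.card {x // keep i0 x}) := by
  classical
  have := ig_masterHole (k := k) (g := g) (c := 1) (w := 0) (K0 := K)
    (fun p : {p : Fin N × X // keep p.1 p.2} => p.1.1) i0 (gd_of_oa hW keep K hK)
    (by simpa using hb) (by
      intro i hi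
      rw [Nat.card_congr (fibEquiv keep i), one_mul]
      exact hf i hi)
  rw [Nat.card_congr (fibEquiv keep i0), mul_one, add_zero, one_mul] at this
  have hc : Nat.card {x : {p : Fin N × X // keep p.1 p.2} // x.1.1 ≠ i0} =
      (∑ i, Nat.card {x // keep i x}) - Nat.card {x // keep i0 x} := by
    have h1 := Nat.card_congr (Equiv.sumCompl
      (fun x : {p : Fin N × X // keep p.1 p.2} => x.1.1 = i0))
    rw [Nat.card_sum, Nat.card_congr (fibEquiv keep i0), card_trunc] at h1
    have h2 : Nat.card {x : {p : Fin N × X // keep p.1 p.2} // ¬ x.1.1 = i0} =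
      Nat.card {x : {p : Fin N × X // keep p.1 p.2} // x.1.1 ≠ i0} := rfl
    omega
  rwa [hc] at this

/-- sizes of truncated groups and blocks in the two-size truncation -/
theorem trunc_card {x t s : ℕ} (hst : s ≤ t) (i : Fin (x + 1)) :
    Nat.card {v : Fin t // i.val < x ∨ v.val < s} = if i.val < x then t else s := by
  classical
  split_ifs with h
  · rw [Nat.card_congr (Equiv.subtypeUnivEquiv (fun v => Or.inl h)), Nat.card_fin]
  · have e : {v : Fin t // i.val < x ∨ v.val < s} ≃ Fin s :=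
      { toFun := fun v => ⟨v.1.val, by rcases v.2 with h' | h'; exact absurd h' h; exact h'⟩
        invFun := fun v => ⟨⟨v.val, lt_of_lt_of_le v.2 hst⟩, Or.inr v.2⟩
        left_inv := fun v => rfl
        right_inv := fun v => rfl }
    rw [Nat.card_congr e, Nat.card_fin]

theorem trunc_block {x t s : ℕ} (w : Fin (x + 1) → Fin t) (S : Finset (Fin (x + 1)))
    (hS : ∀ i, i ∈ S ↔ (i.val < x ∨ (w i).val < s)) : S.card = x ∨ S.card = x + 1 := by
  have h1 : S.card ≤ x + 1 := by
    simpa using card_le_univ S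
  have h2 : x ≤ S.card := by
    have : (univ.map (Fin.castSuccEmb : Fin x ↪ Fin (x + 1))).card = x := by simp
    refine this.symm.le.trans (card_le_card ?_)
    intro i hi
    rw [mem_map] at hi
    obtain ⟨j, -, rfl⟩ := hi
    rw [hS]
    left
    simp
  omega

theorem trunc_sum {x t s : ℕ} (hst : s ≤ t) :
    ∑ i : Fin (x + 1), Nat.card {v : Fin t // i.val < x ∨ v.val < s} = x * t + s := by
  rw [sum_congr rfl (fun i _ => trunc_card hst i), Fin.sum_univ_castSucc]
  simp

/-- `x t + s` from `x`, `x + 1`, `t`, `s` -/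
theorem ig_stepE {k g x t s : ℕ} (hx : IG {k} g x 0) (hx1 : IG {k} g (x + 1) 0)
    (hO : OA (x + 1) t) (ht : IG {k} g t 0) (hs : IG {k} g s 0) (hst : s ≤ t) :
    IG {k} g (x * t + s) 0 := by
  obtain ⟨W, hW⟩ := hO
  rw [← trunc_sum hst]
  refine ig_oa hW (fun i v => i.val < x ∨ v.val < s) {x, x + 1} ?_ ?_ ?_
  · intro w _ S hS
    exact trunc_block w S hS
  · rintro u (rfl | rfl)
    · exact hx
    · exact hx1
  · intro i
    rw [trunc_card hst]
    split_ifs
    · exact ht
    · exact hs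

/-- `u` groups, the first `k` of which form a hole -/
def HH (k g u : ℕ) : Prop := k ≤ u ∧ IG {k} g (u - k) (g * k)

theorem hh_base (k g : ℕ) : HH k g k := ⟨le_rfl, by rw [Nat.sub_self]; exact ig_empty _ _ _⟩

theorem hh_step {k g x t s : ℕ} (hx0 : 0 < x) (hx : IG {k} g x 0) (hx1 : IG {k} g (x + 1) 0)
    (hO : OA (x + 1) t) (ht : IG {k} g t 0) (hh : HH k g t) (hs : IG {k} g s 0) (hst : s ≤ t) :
    HH k g (x * t + s) := by
  obtain ⟨W, hW⟩ := hO
  have hx0' : (0 : Fin (x + 1)).val < x := by simpa using hx0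
  have hkt : k ≤ t := hh.1
  have hxt : t ≤ x * t := Nat.le_mul_of_pos_left t hx0
  refine ⟨by omega, ?_⟩
  have h1 := ig_oa_hole (k := k) (g := g) hW (fun i v => i.val < x ∨ v.val < s) {x, x + 1} 0
    (fun w _ S hS => trunc_block w S hS)
    (by
      rintro u (rfl | rfl)
      · exact hx
      · exact hx1) (by
      intro i _
      rw [trunc_card hst]
      split_ifs
      · exact ht
      · exact hs)
  rw [trunc_sum hst, trunc_card hst, if_pos hx0'] at h1
  have h2 : g * t = g * (t - k) + g * k := by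
    rw [← mul_add]; congr 1; omega
  rw [h2] at h1
  have h3 := ig_comp h1 hh.2
  have h4 : x * t + s - t + (t - k) = x * t + s - k := by omega
  rwa [h4] at h3

end Pool.Agent.W855
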