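import Pool.Agent.W855.GDtools

/-!
# Shift construction and deletion of points in general position
-/

set_option autoImplicit false

namespace Pool.Agent.W855

open Finset H108

theorem ig_of_oa {k g : ℕ} (h : OA k g) : IG {k} g k 0 := by
  obtain ⟨W, hW⟩ := h
  have h1 := gd_of_oa hW (fun _ _ => True) {k} (by
    intro w _ s hs
    have : s = univ := by ext i; simp [hs]
    rw [this]; simp)
  refine (ig_of_fibers0 (g := g) (a := k) ?_ (by simp)).1 h1
  intro b
  rw [Nat.card_congr (fibEquiv (fun (_ : Fin k) (_ : Fin g) => True) b),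
    Nat.card_congr (Equiv.subtypeUnivEquiv (fun v => trivial)), Nat.card_fin]

theorem ig_inflateO {k g a w c : ℕ} (hO : OA k c) (h : IG {k} g a w) :
    IG {k} (g * c) a (w * c) := by
  have h1 : GD {k} (fun p : ((Fin a × Fin g) ⊕ Fin w) × Fin c => igMap g a w p.1) :=
    GD_wfc c h (by rintro u rfl; exact ig_of_oa hO)
  suffices H : GD {k} (igm (Fin a) (Fin g × Fin c) (Fin w × Fin c)) from
    (igm_iff (by simp) (by simp) (by simp)).1 H
  refine GD_bij' (Sum.elim (fun p => (Sum.inl (p.1, p.2.1), p.2.2))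
    (fun p => (Sum.inr p.1, p.2))) ⟨?_, ?_⟩ ?_ h1
  · rintro (⟨x, i, i'⟩ | ⟨x, i⟩) (⟨y, j, j'⟩ | ⟨y, j⟩) h <;> simp_all
  · rintro ⟨(⟨x, i⟩ | x), j⟩
    · exact ⟨Sum.inl (x, i, j), rfl⟩
    · exact ⟨Sum.inr (x, j), rfl⟩
  · rintro (⟨x, i, i'⟩ | ⟨x, i⟩) (⟨y, j, j'⟩ | ⟨y, j⟩) <;> simp [igMap]

/-- an orthogonal array with one more position gives an idempotent one -/
theorem oa_idem {k m : ℕ} (hk : 0 < k) (hO : OA (k + 1) (m + 1)) :
    ∃ W : Set (Fin k → Fin (m + 1)),
      (∀ i j, i ≠ j → ∀ a b, a ≠ b → ∃! w, w ∈ W ∧ w i = a ∧ w j = b) ∧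
      ∀ w ∈ W, ∀ i j, i ≠ j → w i ≠ w j := by
  obtain ⟨W, hW⟩ := hO
  have hc : ∀ i : Fin k, i.castSucc ≠ Fin.last k := fun i => (Fin.castSucc_lt_last i).ne
  -- word through `a` at position `i` and `0` at the last position
  choose f hf using fun (i : Fin k) (a : Fin (m + 1)) => (hW i.castSucc (Fin.last k) (hc i) a 0)
  have hf1 : ∀ i a, f i a ∈ W := fun i a => (hf i a).1.1
  have hf2 : ∀ i a, f i a i.castSucc = a := fun i a => (hf i a).1.2.1
  have hf3 : ∀ i a, f i a (Fin.last k) = 0 := fun i a => (hf i a).1.2.2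
  have hf4 : ∀ i a w, w ∈ W → w i.castSucc = a → w (Fin.last k) = 0 → w = f i a :=
    fun i a w h1 h2 h3 => (hf i a).2 w ⟨h1, h2, h3⟩
  let z : Fin k := ⟨0, hk⟩
  let e : Fin k → (Fin (m + 1) ≃ Fin (m + 1)) := fun i =>
    { toFun := fun a => f i a z.castSucc
      invFun := fun b => f z b i.castSucc
      left_inv := by
        intro a
        have : f i a = f z (f i a z.castSucc) := hf4 z _ _ (hf1 i a) rfl (hf3 i a)
        change f z (f i a z.castSucc) i.castSucc = a
        rw [← this, hf2]
      right_inv := by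
        intro b
        have : f z b = f i (f z b i.castSucc) := hf4 i _ _ (hf1 z b) rfl (hf3 z b)
        change f i (f z b i.castSucc) z.castSucc = b
        rw [← this, hf2] }
  have he : ∀ i a, e i a = f i a z.castSucc := fun i a => rfl
  refine ⟨{w' | ∃ w ∈ W, w (Fin.last k) ≠ 0 ∧ w' = fun i => e i (w i.castSucc)}, ?_, ?_⟩
  · intro i j hij a b hab
    have hij' : i.castSucc ≠ j.castSucc := fun h => hij (Fin.castSucc_injective _ h)
    obtain ⟨w, ⟨hw, h1, h2⟩, hu⟩ := hW _ _ hij' ((e i).symm a) ((e j).symm b)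
    refine ⟨fun i => e i (w i.castSucc), ⟨⟨w, hw, ?_, rfl⟩, by simp [h1], by simp [h2]⟩, ?_⟩
    · intro h3
      apply hab
      have h4 : w = f i (w i.castSucc) := hf4 i _ _ hw rfl h3
      have h5 : w = f j (w j.castSucc) := hf4 j _ _ hw rfl h3
      have h6 : e i (w i.castSucc) = e j (w j.castSucc) := by
        rw [he, he, ← h4, ← h5]
      rw [h1, h2] at h6
      simpa using h6
    · rintro w' ⟨⟨v, hv, hv0, rfl⟩, h3, h4⟩
      have : v = w := hu v ⟨hv, by rw [← h3]; simp, by rw [← h4]; simp⟩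
      rw [this]
  · rintro w' ⟨w, hw, h0, rfl⟩ i j hij h
    have hij' : i.castSucc ≠ j.castSucc := fun h => hij (Fin.castSucc_injective _ h)
    apply h0
    have h' : e i (w i.castSucc) = e j (w j.castSucc) := h
    -- the word with value `c` at the first position
    set c := e i (w i.castSucc) with hcdef
    have h1 : f z c i.castSucc = w i.castSucc := by
      have : (e i).symm c = w i.castSucc := by rw [hcdef]; simp
      rw [← this]; rfl
    have h2 : f z c j.castSucc = w j.castSucc := by
      have : (e j).symm c = w j.castSucc := by rw [h']; simp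
      rw [← this]; rfl
    obtain ⟨v, -, hu⟩ := hW _ _ hij' (w i.castSucc) (w j.castSucc)
    rw [hu w ⟨hw, rfl, rfl⟩, ← hu (f z c) ⟨hf1 z c, h1, h2⟩, hf3]

/-- the shift construction -/
theorem ig_shift {k g m : ℕ} (hk : 0 < k) (h : IG {k} g m (g * k)) (hO : OA (k + 1) m)
    (hg : OA k g) : IG {k} (g * k) (m + 1) 0 := by
  rcases m with _ | m
  · exact ig_one _ _
  obtain ⟨W, hW1, hW2⟩ := oa_idem hk hO
  rw [← ig_hole_iff]
  have h0 : GD {k} (igm (Fin (m + 1)) (Fin g) (Fin k × Fin g)) :=
    (igm_iff (by simp) (by simp) (by simp [mul_comm])).2 h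
  have h00 : GD {k} (Prod.fst : Fin k × Fin g → Fin k) := (ig_iff_fst {k} g k).1 (ig_of_oa hg)
  suffices H : GD {k} (igm (Fin (m + 1)) (Fin k × Fin g) (Fin k × Fin g)) from
    (igm_iff (by simp [mul_comm]) (by simp) (by simp [mul_comm])).1 H
  refine GD_union _ (ι := Fin k ⊕ {w // w ∈ W})
    (Sum.elim (fun _ => (Fin (m + 1) × Fin g) ⊕ (Fin k × Fin g)) (fun _ => Fin k × Fin g))
    (Sum.elim (fun _ => Option (Fin (m + 1))) (fun _ => Fin k))
    (fun o => match o with
      | Sum.inl i => Sum.elim (fun p => Sum.inl (p.1, (i, p.2))) Sum.inr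
      | Sum.inr w => fun p => Sum.inl (w.1 p.1, (p.1, p.2))) ?_
    (fun o => match o with
      | Sum.inl _ => igm (Fin (m + 1)) (Fin g) (Fin k × Fin g)
      | Sum.inr _ => Prod.fst) ?_ ?_ ?_
  · rintro (i | w)
    · rintro (⟨x, a⟩ | x) (⟨y, b⟩ | y) hxy <;> simp_all
    · rintro ⟨x, a⟩ ⟨y, b⟩ hxy
      simp only [Sum.inl.injEq, Prod.mk.injEq] at hxy
      rw [hxy.2.1, hxy.2.2]
  · rintro (i | w)
    · rintro (⟨x, a⟩ | x) (⟨y, b⟩ | y) hxy <;> simp_all
    · rintro ⟨x, a⟩ ⟨y, b⟩ hxy
      simp only [igm_inl, ne_eq, Option.some.injEq]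
      exact hW2 w.1 w.2 x y hxy
  · rintro (⟨x, i, a⟩ | x) (⟨y, j, b⟩ | y) hxy
    · have hxy' : x ≠ y := by simpa using hxy
      by_cases hij : i = j
      · subst hij
        refine ⟨Sum.inl i, ⟨Sum.inl (x, a), Sum.inl (y, b), rfl, rfl, by simpa using hxy'⟩, ?_⟩
        rintro (i' | w) ⟨z, z', hz, hz', hs⟩
        · rcases z with ⟨z, c⟩ | z
          · simp only [Sum.elim_inl, Sum.inl.injEq, Prod.mk.injEq] at hz
            rw [hz.2.1]
          · simp at hz
        · exfalso
          simp only [Sum.inl.injEq, Prod.mk.injEq] at hz hz'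
          exact hs (hz.2.1.trans hz'.2.1.symm)
      · obtain ⟨w, ⟨hw, h1, h2⟩, hu⟩ := hW1 i j hij x y hxy'
        refine ⟨Sum.inr ⟨w, hw⟩, ⟨(i, a), (j, b), by simp [h1], by simp [h2], hij⟩, ?_⟩
        rintro (i' | w') ⟨z, z', hz, hz', hs⟩
        · exfalso
          rcases z with ⟨z, c⟩ | z
          · rcases z' with ⟨z', c'⟩ | z'
            · simp only [Sum.elim_inl, Sum.inl.injEq, Prod.mk.injEq] at hz hz'
              exact hij (hz.2.1.symm.trans hz'.2.1)
            · simp at hz'
          · simp at hz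
        · simp only [Sum.inl.injEq, Prod.mk.injEq] at hz hz'
          congr 1
          apply Subtype.ext
          apply hu
          refine ⟨w'.2, ?_, ?_⟩
          · rw [← hz.1, hz.2.1]
          · rw [← hz'.1, hz'.2.1]
    · refine ⟨Sum.inl i, ⟨Sum.inl (x, a), Sum.inr y, rfl, rfl, by simp⟩, ?_⟩
      rintro (i' | w) ⟨z, z', hz, hz', hs⟩
      · rcases z with ⟨z, c⟩ | z
        · simp only [Sum.elim_inl, Sum.inl.injEq, Prod.mk.injEq] at hz
          rw [hz.2.1]
        · simp at hz
      · simp at hz'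
    · refine ⟨Sum.inl j, ⟨Sum.inr x, Sum.inl (y, b), rfl, rfl, by simp⟩, ?_⟩
      rintro (i' | w) ⟨z, z', hz, hz', hs⟩
      · rcases z' with ⟨z', c⟩ | z'
        · simp only [Sum.elim_inl, Sum.inl.injEq, Prod.mk.injEq] at hz'
          rw [hz'.2.1]
        · simp at hz'
      · simp at hz
    · simp at hxy
  · rintro (i | w)
    · exact h0
    · exact h00

/-- points in general position, one in each of the first `δ` groups -/
theorem exists_general {N T : ℕ} {W : Set (Fin N → Fin T)} (hW : IsOA W) (hT : N * N < T)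
    (δ : ℕ) (hδ : δ ≤ N) : ∃ d : Fin N → Fin T, ∀ i j l : Fin N, i.val < δ → j.val < δ →
      l.val < δ → i ≠ j → j ≠ l → i ≠ l → ∀ w ∈ W, w i = d i → w j = d j → w l ≠ d l := by
  classical
  induction δ with
  | zero =>
    exact ⟨fun _ => ⟨0, by omega⟩, fun i _ _ h => absurd h (by omega)⟩
  | succ δ ih =>
    obtain ⟨d, hd⟩ := ih (by omega)
    let p : Fin N := ⟨δ, by omega⟩
    let bad : Finset (Fin T) := univ.image (fun ij : Fin N × Fin N =>
      if h : ij.1 ≠ ij.2 then (hW ij.1 ij.2 h (d ij.1) (d ij.2)).choose p else ⟨0, by omega⟩)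
    have hbad : bad.card < T := by
      refine lt_of_le_of_lt card_image_le ?_
      simpa using hT
    obtain ⟨v, hv⟩ : ∃ v, v ∉ bad := by
      by_contra hcon
      push Not at hcon
      have : bad = univ := eq_univ_iff_forall.2 hcon
      rw [this] at hbad
      simp at hbad
    have hkey : ∀ i j, i ≠ j → ∀ w ∈ W, w i = d i → w j = d j → w p ≠ v := by
      intro i j hij w hw h1 h2 h3
      apply hv
      refine mem_image.2 ⟨(i, j), mem_univ _, ?_⟩
      rw [dif_pos hij, ← h3]
      have h4 := (hW i j hij (d i) (d j)).choose_spec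
      rw [← h4.2 w ⟨hw, h1, h2⟩]
    refine ⟨Function.update d p v, ?_⟩
    intro i j l hi hj hl hij hjl hil w hw h1 h2 h3
    by_cases hip : i = p
    · have hjp : j ≠ p := fun h => hij (hip.trans h.symm)
      have hlp : l ≠ p := fun h => hil (hip.trans h.symm)
      rw [Function.update_of_ne hjp] at h2
      rw [Function.update_of_ne hlp] at h3
      rw [hip, Function.update_self] at h1
      exact hkey j l hjl w hw h2 h3 h1
    · by_cases hjp : j = p
      · have hlp : l ≠ p := fun h => hjl (hjp.trans h.symm)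
        rw [Function.update_of_ne hip] at h1
        rw [Function.update_of_ne hlp] at h3
        rw [hjp, Function.update_self] at h2
        exact hkey i l hil w hw h1 h3 h2
      · rw [Function.update_of_ne hip] at h1
        rw [Function.update_of_ne hjp] at h2
        by_cases hlp : l = p
        · rw [hlp, Function.update_self] at h3
          exact hkey i j hij w hw h1 h2 h3
        · rw [Function.update_of_ne hlp] at h3
          have hne : ∀ q : Fin N, q ≠ p → q.val < δ + 1 → q.val < δ := by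
            intro q hq hq2
            have : q.val ≠ δ := fun h => hq (Fin.ext h)
            omega
          exact hd i j l (hne i hip hi) (hne j hjp hj) (hne l hlp hl) hij hjl hil w hw h1 h2 h3

/-- deletion of at most `N` points in general position -/
theorem ig_delete {k g N T δ : ℕ} (hO : OA N T) (hT : N * N < T) (hδ : δ ≤ N)
    (h1 : IG {k} g (N - 2) 0) (h2 : IG {k} g (N - 1) 0) (h3 : IG {k} g N 0)
    (h4 : IG {k} g (T - 1) 0) (h5 : IG {k} g T 0) : IG {k} g (N * T - δ) 0 := by
  classical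
  obtain ⟨W, hW⟩ := hO
  obtain ⟨d, hd⟩ := exists_general hW hT δ hδ
  have hcard : ∀ i : Fin N, Nat.card {v // ¬ (i.val < δ ∧ v = d i)} =
      if i.val < δ then T - 1 else T := by
    intro i
    split_ifs with h
    · rw [Nat.card_eq_fintype_card, Fintype.card_subtype]
      have : (univ.filter (fun v => ¬ (i.val < δ ∧ v = d i))) = univ.erase (d i) := by
        ext v
        simp [h]
      rw [this, card_erase_of_mem (mem_univ _)]
      simp
    · rw [Nat.card_congr (Equiv.subtypeUnivEquiv (fun v h' => h h'.1)), Nat.card_fin]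
  have hsum : (∑ i : Fin N, Nat.card {v // ¬ (i.val < δ ∧ v = d i)}) = N * T - δ := by
    have e1 : (∑ i : Fin N, Nat.card {v // ¬ (i.val < δ ∧ v = d i)}) +
        (∑ i : Fin N, if i.val < δ then 1 else 0) = N * T := by
      rw [← sum_add_distrib]
      have : ∀ i : Fin N, Nat.card {v // ¬ (i.val < δ ∧ v = d i)} +
          (if i.val < δ then 1 else 0) = T := by
        intro i
        rw [hcard]
        split_ifs <;> omega
      rw [sum_congr rfl (fun i _ => this i)]
      simp
    have e2 : (∑ i : Fin N, if i.val < δ then 1 else 0) = δ := by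
      rw [sum_boole]
      have : (univ.filter (fun i : Fin N => i.val < δ)) = (univ : Finset (Fin δ)).map
          ⟨Fin.castLE hδ, Fin.castLE_injective hδ⟩ := by
        ext i
        simp only [mem_filter, mem_univ, true_and, mem_map, Function.Embedding.coeFn_mk]
        constructor
        · intro hi
          exact ⟨⟨i.val, hi⟩, rfl⟩
        · rintro ⟨j, rfl⟩
          exact j.2
      rw [this]
      simp
    omega
  rw [← hsum]
  refine ig_oa hW (fun i v => ¬ (i.val < δ ∧ v = d i)) {u | N - 2 ≤ u ∧ u ≤ N} ?_ ?_ ?_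
  · intro w hw S hS
    have hle : S.card ≤ N := by simpa using card_le_univ S
    refine ⟨?_, hle⟩
    have hcompl : (univ \ S).card ≤ 2 := by
      by_contra hcon
      push Not at hcon
      obtain ⟨i, hi, j, hj, l, hl, hij, hil, hjl⟩ := two_lt_card.1 hcon
      have hm : ∀ q, q ∈ univ \ S → q.val < δ ∧ w q = d q := by
        intro q hq
        rw [mem_sdiff, hS] at hq
        exact not_not.1 hq.2
      exact hd i j l (hm i hi).1 (hm j hj).1 (hm l hl).1 hij hjl hil w hw (hm i hi).2
        (hm j hj).2 (hm l hl).2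
    rw [card_sdiff_of_subset (subset_univ _)] at hcompl
    simp at hcompl
    omega
  · rintro u ⟨hu1, hu2⟩
    rcases (show u = N - 2 ∨ u = N - 1 ∨ u = N by omega) with rfl | rfl | rfl
    · exact h1
    · exact h2
    · exact h3
  · intro i
    rw [hcard]
    split_ifs
    · exact h4
    · exact h5

end Pool.Agent.W855
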