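import Pool.Agent.W855.OA
import Pool.Agent.H505R3.SieveG

/-!
# Transversal designs with `N` groups of size `n` exist for all `n ≥ N ^ C`
-/

set_option autoImplicit false

namespace Pool.Agent.W855

open Finset

theorem exists_level (N : ℕ) (hN : 2 ≤ N) :
    ∃ I : ℕ, 1 ≤ I ∧ N ≤ 2 ^ 2 ^ I ∧ 2 ^ 2 ^ I ≤ N ^ 2 := by
  by_cases h4 : N ≤ 4
  · exact ⟨1, le_rfl, by simpa using h4, by norm_num; nlinarith⟩
  · push Not at h4
    have hex : ∃ I, N ≤ 2 ^ 2 ^ I := ⟨N, (Nat.lt_two_pow_self.trans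
      (Nat.pow_lt_pow_right (by norm_num) Nat.lt_two_pow_self)).le⟩
    classical
    let I := Nat.find hex
    have hI : N ≤ 2 ^ 2 ^ I := Nat.find_spec hex
    have hI1 : I ≠ 0 := by
      intro h
      rw [h] at hI
      norm_num at hI
      omega
    have hI2 : 2 ^ 2 ^ (I - 1) < N := by
      have := Nat.find_min hex (m := I - 1) (by omega)
      omega
    refine ⟨I, by omega, hI, ?_⟩
    have : 2 ^ I = 2 ^ (I - 1) * 2 := by
      rw [← pow_succ]; congr 1; omega
    rw [this, pow_mul]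
    exact Nat.pow_le_pow_left hI2.le 2

theorem exists_avoid (N : ℕ) (hN : 2 ≤ N) (Ω : ℕ → Finset ℕ) (hΩ : ∀ p, Ω p ⊆ range p)
    (h2 : ∀ p, p.Prime → p ≤ N → (Ω p).card ≤ 2) (h1 : (Ω 2).card ≤ 1) :
    ∃ x : ℕ, 0 < x ∧ x ≤ N ^ 1200 ∧ ∀ p, p.Prime → p ≤ N → x % p ∉ Ω p := by
  obtain ⟨I, hI1, hI2, hI3⟩ := exists_level N hN
  have h := Pool.Agent.H505R3.sieve_lowerG (Ω := Ω) 1 (by norm_num)
    ((range (N + 1)).filter Nat.Prime) (fun p hp => (mem_filter.1 hp).2) ?_ (fun p _ => hΩ p)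
    (fun p hp => h2 p (mem_filter.1 hp).2 (by
      have := mem_range.1 (mem_filter.1 hp).1; omega)) I hI1 (fun p hp => by
      have := mem_range.1 (mem_filter.1 hp).1; omega) (2 ^ (600 * 2 ^ I))
  · have hpos : (0 : ℝ) < (((Ioc 0 (2 ^ (600 * 2 ^ I))).filter (fun n => ∀ p ∈
        (range (N + 1)).filter Nat.Prime, n % p ∉ Ω p)).card : ℝ) := by
      refine lt_of_lt_of_le ?_ h
      rw [sub_pos]
      have he : (2 : ℝ) ^ (-(47 * I : ℤ)) ≤ Real.exp (-(32 * ((1 : ℕ) : ℝ))) ^ I := by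
        have : (2 : ℝ) ^ (-(47 : ℤ)) ≤ Real.exp (-(32 * ((1 : ℕ) : ℝ))) := by
          rw [zpow_neg, Real.exp_neg]
          apply inv_anti₀ (Real.exp_pos _)
          have : Real.exp (32 * ((1 : ℕ) : ℝ)) = Real.exp 1 ^ 32 := by
            rw [← Real.exp_nat_mul]; norm_num
          rw [this]
          have h6 := Real.exp_one_lt_d9
          calc Real.exp 1 ^ 32 ≤ 2.7183 ^ 32 :=
                pow_le_pow_left₀ (Real.exp_pos 1).le (by linarith) 32
            _ ≤ 2 ^ (47 : ℤ) := by norm_num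
        calc (2 : ℝ) ^ (-(47 * I : ℤ)) = ((2 : ℝ) ^ (-(47 : ℤ))) ^ I := by
              rw [← zpow_natCast, ← zpow_mul]; congr 1
          _ ≤ _ := pow_le_pow_left₀ (by positivity) this I
      have hI4 : I < 2 ^ I := Nat.lt_two_pow_self
      calc (2 : ℝ) ^ ((420 * 1 + 32) * 2 ^ I)
          < (2 : ℝ) ^ ((600 * 2 ^ I : ℤ) - 47 * I - 1) := by
            rw [← zpow_natCast]
            apply zpow_lt_zpow_right₀ (by norm_num)
            push_cast
            have : (I : ℤ) < 2 ^ I := by exact_mod_cast hI4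
            have h2 : (1 : ℤ) ≤ 2 ^ I := by exact_mod_cast Nat.one_le_two_pow
            linarith
        _ = (2 ^ (600 * 2 ^ I) : ℕ) * ((2 : ℝ) ^ (-(47 * I : ℤ)) / 2) := by
            rw [zpow_sub₀ (by norm_num), zpow_sub₀ (by norm_num), zpow_neg]
            push_cast
            rw [zpow_one, ← zpow_natCast]
            push_cast
            field_simp
        _ ≤ _ := by gcongr
    obtain ⟨x, hx⟩ := card_pos.1 (by exact_mod_cast hpos)
    rw [mem_filter, mem_Ioc] at hx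
    refine ⟨x, hx.1.1, ?_, fun p hp hpN => hx.2 p (mem_filter.2 ⟨mem_range.2 (by omega), hp⟩)⟩
    refine hx.1.2.trans ?_
    calc 2 ^ (600 * 2 ^ I) = (2 ^ 2 ^ I) ^ 600 := by rw [← pow_mul]; ring_nf
      _ ≤ (N ^ 2) ^ 600 := Nat.pow_le_pow_left hI3 _
      _ = N ^ 1200 := by rw [← pow_mul]
  · intro p hp
    have hpp := (mem_filter.1 hp).2
    have hpN : p ≤ N := by have := mem_range.1 (mem_filter.1 hp).1; omega
    rcases Nat.lt_or_ge p 3 with h3 | h3
    · have : p = 2 := by have := hpp.two_le; omega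
      subst this
      omega
    · have := h2 p hpp hpN
      omega

/-- simultaneous sifting of two linear forms -/
theorem exists_sift (N : ℕ) (hN : 2 ≤ N) (a1 b1 a2 b2 : ℤ)
    (h1 : ∀ p : ℕ, p.Prime → p ≤ N → (p : ℤ) ∣ a1 → ¬ (p : ℤ) ∣ b1)
    (h2 : ∀ p : ℕ, p.Prime → p ≤ N → (p : ℤ) ∣ a2 → ¬ (p : ℤ) ∣ b2)
    (h3 : ∃ r : ℤ, ¬ (2 : ℤ) ∣ a1 * r + b1 ∧ ¬ (2 : ℤ) ∣ a2 * r + b2) :
    ∃ x : ℕ, 0 < x ∧ x ≤ N ^ 1200 ∧ ∀ p : ℕ, p.Prime → p ≤ N →
      ¬ (p : ℤ) ∣ a1 * x + b1 ∧ ¬ (p : ℤ) ∣ a2 * x + b2 := by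
  classical
  let A : ℕ → Finset ℕ := fun p => (range p).filter (fun r : ℕ => (p : ℤ) ∣ a1 * r + b1)
  let B : ℕ → Finset ℕ := fun p => (range p).filter (fun r : ℕ => (p : ℤ) ∣ a2 * r + b2)
  have hone : ∀ (a b : ℤ) (p : ℕ), p.Prime → ((p : ℤ) ∣ a → ¬ (p : ℤ) ∣ b) →
      ((range p).filter (fun r : ℕ => (p : ℤ) ∣ a * r + b)).card ≤ 1 := by
    intro a b p hp hab
    rw [card_le_one]
    intro r hr s hs
    rw [mem_filter, mem_range] at hr hs
    have h4 : (p : ℤ) ∣ a * (r - s) := by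
      have := dvd_sub hr.2 hs.2
      have e : a * (r : ℤ) + b - (a * s + b) = a * (r - s) := by ring
      rwa [e] at this
    rcases (Nat.prime_iff_prime_int.1 hp).dvd_or_dvd h4 with h5 | h5
    · exfalso
      refine hab h5 ?_
      have := dvd_sub hr.2 (h5.mul_right (r : ℤ))
      simpa using this
    · obtain ⟨c, hc⟩ := h5
      have hr1 : (r : ℤ) < p := by exact_mod_cast hr.1
      have hs1 : (s : ℤ) < p := by exact_mod_cast hs.1
      have hc0 : c = 0 := by
        by_contra hne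
        rcases lt_or_gt_of_ne hne with h | h
        · have : (p : ℤ) * c ≤ -p := by nlinarith [hp.pos]
          omega
        · have : (p : ℤ) * c ≥ p := by nlinarith [hp.pos]
          omega
      rw [hc0] at hc
      omega
  obtain ⟨x, hx0, hx1, hx2⟩ := exists_avoid N hN (fun p => A p ∪ B p) (fun p => by
      intro r hr
      rcases mem_union.1 hr with h | h <;> exact (mem_filter.1 h).1) (fun p hp hpN => by
      refine (card_union_le _ _).trans ?_
      have := hone a1 b1 p hp (h1 p hp hpN)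
      have := hone a2 b2 p hp (h2 p hp hpN)
      simp only [A, B]
      omega) (by
      obtain ⟨r, hr1, hr2⟩ := h3
      have hsub : A 2 ∪ B 2 ⊆ (range 2).erase (r % 2).toNat := by
        intro s hs
        rw [mem_erase]
        refine ⟨?_, ?_⟩
        · rintro rfl
          have e : (((r % 2).toNat : ℕ) : ℤ) = r % 2 := Int.toNat_of_nonneg (by omega)
          have e2 : r = r % 2 + 2 * (r / 2) := by omega
          rcases mem_union.1 hs with h | h
          · have := (mem_filter.1 h).2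
            apply hr1
            rw [e] at this
            rw [e2]
            have h6 := dvd_add this (Dvd.intro (a1 * (r / 2)) rfl : (2 : ℤ) ∣ 2 * (a1 * (r / 2)))
            have e3 : a1 * (r % 2) + b1 + 2 * (a1 * (r / 2)) = a1 * (r % 2 + 2 * (r / 2)) + b1 := by
              ring
            rwa [← e3]
          · have := (mem_filter.1 h).2
            apply hr2
            rw [e] at this
            rw [e2]
            have h6 := dvd_add this (Dvd.intro (a2 * (r / 2)) rfl : (2 : ℤ) ∣ 2 * (a2 * (r / 2)))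
            have e3 : a2 * (r % 2) + b2 + 2 * (a2 * (r / 2)) = a2 * (r % 2 + 2 * (r / 2)) + b2 := by
              ring
            rwa [← e3]
        · rcases mem_union.1 hs with h | h <;> exact (mem_filter.1 h).1
      refine (card_le_card hsub).trans ?_
      rw [card_erase_of_mem]
      · simp
      · rw [mem_range]
        omega)
  refine ⟨x, hx0, hx1, fun p hp hpN => ?_⟩
  have h4 := hx2 p hp hpN
  rw [mem_union, not_or] at h4
  have hxp : x % p < p := Nat.mod_lt _ hp.pos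
  have e2 : (x : ℤ) = (x % p : ℕ) + p * (x / p : ℕ) := by
    exact_mod_cast (Nat.mod_add_div x p).symm
  constructor
  · intro h5
    apply h4.1
    rw [mem_filter, mem_range]
    refine ⟨hxp, ?_⟩
    rw [e2] at h5
    have h6 := dvd_sub h5 (Dvd.intro (a1 * (x / p : ℕ)) rfl : (p : ℤ) ∣ p * (a1 * (x / p : ℕ)))
    have e3 : a1 * ((x % p : ℕ) + p * (x / p : ℕ) : ℤ) + b1 - p * (a1 * (x / p : ℕ)) =
      a1 * (x % p : ℕ) + b1 := by ring
    rwa [e3] at h6
  · intro h5
    apply h4.2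
    rw [mem_filter, mem_range]
    refine ⟨hxp, ?_⟩
    rw [e2] at h5
    have h6 := dvd_sub h5 (Dvd.intro (a2 * (x / p : ℕ)) rfl : (p : ℤ) ∣ p * (a2 * (x / p : ℕ)))
    have e3 : a2 * ((x % p : ℕ) + p * (x / p : ℕ) : ℤ) + b2 - p * (a2 * (x / p : ℕ)) =
      a2 * (x % p : ℕ) + b2 := by ring
    rwa [e3] at h6

theorem nice_rough {N m : ℕ} (hm : 0 < m) (h : ∀ p, p.Prime → p ≤ N → ¬ p ∣ m) :
    H108.Nice (N + 1) m := by
  refine H108.nice_of_pp hm ?_
  intro p hp hpm
  have h1 : N < p := by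
    by_contra hh
    exact h p hp (by omega) hpm
  have h2 : 0 < m.factorization p := hp.factorization_pos_of_dvd hm.ne' hpm
  calc N + 1 ≤ p := h1
    _ = p ^ 1 := (pow_one p).symm
    _ ≤ _ := Nat.pow_le_pow_right hp.pos h2

theorem nice_two_rough {N e m : ℕ} (he : N ≤ 2 ^ e) (he0 : e ≠ 0) (hm : 0 < m)
    (h : ∀ p, p.Prime → p ≤ N → ¬ p ∣ m) : H108.Nice N (2 ^ e * m) :=
  H108.nice_mul (H108.nice_prime_pow Nat.prime_two he0 he)
    (H108.nice_mono (nice_rough hm h) (by omega))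

theorem oa_rough {N m : ℕ} (hm : 0 < m) (h : ∀ p, p.Prime → p ≤ N → ¬ p ∣ m) :
    OA (N + 1) m := oa_of_nice (nice_rough hm h)

/-- two consecutive good orders, the second coordinate coprime to `n` as far as small primes are
concerned -/
theorem exists_good_pair (N : ℕ) (hN : 2 ≤ N) (n : ℕ) :
    ∃ m : ℕ, 0 < m ∧ m ≤ 2 * N * N ^ 1200 ∧ OA N m ∧ OA N (m + 1) ∧
      (∀ p, p.Prime → p ≤ N → p ∣ m → ¬ p ∣ n) ∧ (Odd (n + m)) := by
  obtain ⟨e, he1, he2⟩ : ∃ e, N ≤ 2 ^ e ∧ 2 ^ e ≤ 2 * N := by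
    refine ⟨Nat.clog 2 N, Nat.le_pow_clog (by norm_num) N, ?_⟩
    have h1 : 0 < Nat.clog 2 N := Nat.clog_pos (by norm_num) hN
    have h2 : 2 ^ (Nat.clog 2 N - 1) < N := Nat.pow_pred_clog_lt_self (by norm_num) hN
    have h3 : 2 ^ Nat.clog 2 N = 2 ^ (Nat.clog 2 N - 1) * 2 := by
      rw [← pow_succ]; congr 1; omega
    omega
  have he0 : e ≠ 0 := by
    rintro rfl
    simp at he1
    omega
  have hE2 : (2 : ℤ) ∣ 2 ^ e := dvd_pow_self _ he0
  have hEp : ∀ p : ℕ, p.Prime → (p : ℤ) ∣ 2 ^ e → p = 2 := by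
    intro p hp h
    have h1 : p ∣ 2 ^ e := by exact_mod_cast h
    exact (Nat.prime_dvd_prime_iff_eq hp Nat.prime_two).1 (hp.dvd_of_dvd_pow h1)
  rcases Nat.even_or_odd n with hn | hn
  · -- `m = 2 ^ e * x - 1`
    obtain ⟨x, hx0, hx1, hx2⟩ := exists_sift N hN 1 0 (2 ^ e) (-1)
      (by
        intro p hp _ h
        exfalso
        have := Int.natCast_dvd_natCast.1 (by simpa using h : (p : ℤ) ∣ ((1 : ℕ) : ℤ))
        exact hp.one_lt.ne' (Nat.dvd_one.1 this))
      (by
        intro p hp _ _ h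
        have := Int.natCast_dvd_natCast.1 (by simpa using h : (p : ℤ) ∣ ((1 : ℕ) : ℤ))
        exact hp.one_lt.ne' (Nat.dvd_one.1 this))
      ⟨1, by norm_num, by
        intro h
        have := dvd_sub (hE2.mul_right (1 : ℤ)) h
        norm_num at this⟩
    have hpos : 1 < 2 ^ e * x := by
      have : 2 ≤ 2 ^ e := le_trans hN he1
      nlinarith
    have hrough : ∀ p, p.Prime → p ≤ N → ¬ p ∣ x := by
      intro p hp hpN h
      apply (hx2 p hp hpN).1
      have : (p : ℤ) ∣ x := by exact_mod_cast h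
      simpa using this
    have hrough2 : ∀ p, p.Prime → p ≤ N → ¬ p ∣ (2 ^ e * x - 1) := by
      intro p hp hpN h
      apply (hx2 p hp hpN).2
      have h1 : (p : ℤ) ∣ ((2 ^ e * x - 1 : ℕ) : ℤ) := by exact_mod_cast h
      rw [Nat.cast_sub hpos.le] at h1
      push_cast at h1
      exact h1
    refine ⟨2 ^ e * x - 1, by omega, ?_, oa_mono (Nat.le_succ N) (oa_rough (by omega) hrough2),
      ?_, ?_, ?_⟩
    · have : 2 ^ e * x ≤ 2 * N * N ^ 1200 := Nat.mul_le_mul he2 hx1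
      omega
    · rw [Nat.sub_add_cancel hpos.le]
      exact oa_of_nice (nice_two_rough he1 he0 hx0 hrough)
    · intro p hp hpN h
      exact absurd h (hrough2 p hp hpN)
    · have h2 : Even (2 ^ e * x) := (Nat.even_pow.2 ⟨even_two, he0⟩).mul_right x
      rw [Nat.odd_add, Nat.even_sub' hpos.le]
      constructor
      · intro ho
        exact absurd ho (Nat.not_odd_iff_even.2 hn)
      · intro ho
        exfalso
        have := ho.2 odd_one
        exact absurd this (Nat.not_odd_iff_even.2 h2)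
  · obtain ⟨x, hx0, hx1, hx2⟩ := exists_sift N hN 1 0 (2 ^ e) 1
      (by
        intro p hp _ h
        exfalso
        have := Int.natCast_dvd_natCast.1 (by simpa using h : (p : ℤ) ∣ ((1 : ℕ) : ℤ))
        exact hp.one_lt.ne' (Nat.dvd_one.1 this))
      (by
        intro p hp _ _ h
        have := Int.natCast_dvd_natCast.1 (by simpa using h : (p : ℤ) ∣ ((1 : ℕ) : ℤ))
        exact hp.one_lt.ne' (Nat.dvd_one.1 this))
      ⟨1, by norm_num, by
        intro h
        have := dvd_sub h (hE2.mul_right (1 : ℤ))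
        norm_num at this⟩
    have hrough : ∀ p, p.Prime → p ≤ N → ¬ p ∣ x := by
      intro p hp hpN h
      apply (hx2 p hp hpN).1
      have : (p : ℤ) ∣ x := by exact_mod_cast h
      simpa using this
    have hrough2 : ∀ p, p.Prime → p ≤ N → ¬ p ∣ (2 ^ e * x + 1) := by
      intro p hp hpN h
      apply (hx2 p hp hpN).2
      have h1 : (p : ℤ) ∣ ((2 ^ e * x + 1 : ℕ) : ℤ) := by exact_mod_cast h
      push_cast at h1
      exact h1
    refine ⟨2 ^ e * x, by positivity, Nat.mul_le_mul he2 hx1,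
      oa_of_nice (nice_two_rough he1 he0 hx0 hrough),
      oa_mono (Nat.le_succ N) (oa_rough (by omega) hrough2), ?_, ?_⟩
    · intro p hp hpN h
      rcases hp.dvd_mul.1 h with h | h
      · have : p = 2 := (Nat.prime_dvd_prime_iff_eq hp Nat.prime_two).1 (hp.dvd_of_dvd_pow h)
        subst this
        intro h2
        exact (Nat.not_even_iff_odd.2 hn) (even_iff_two_dvd.2 h2)
      · exact absurd h (hrough p hp hpN)
    · exact hn.add_even ((Nat.even_pow.2 ⟨even_two, he0⟩).mul_right x)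

theorem td_gen : ∃ C : ℕ, 2 ≤ C ∧ ∀ N : ℕ, 2 ≤ N → ∀ n : ℕ, N ^ C ≤ n → OA N n := by
  refine ⟨3606, by norm_num, ?_⟩
  intro N hN n hn
  obtain ⟨m, hm0, hm1, hOm, hOm1, hmn, hodd⟩ := exists_good_pair N hN n
  set K := N ^ 1200 with hK
  have hK0 : 0 < K := by positivity
  have hbig : (m + 1) * (m * K) ≤ n := by
    refine le_trans ?_ hn
    have h1 : m + 1 ≤ 2 * N * K + N * K := by
      have : 1 ≤ N * K := Nat.mul_pos (by omega) hK0
      omega
    have h9 : 6 ≤ N ^ 4 := by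
      calc 6 ≤ 2 ^ 4 := by norm_num
        _ ≤ N ^ 4 := Nat.pow_le_pow_left hN 4
    calc (m + 1) * (m * K) ≤ (2 * N * K + N * K) * (2 * N * K * K) :=
          Nat.mul_le_mul h1 (Nat.mul_le_mul hm1 le_rfl)
      _ = 6 * (N ^ 2 * K ^ 3) := by ring
      _ ≤ N ^ 4 * (N ^ 2 * K ^ 3) := Nat.mul_le_mul h9 le_rfl
      _ = N ^ 3606 := by rw [hK]; ring
  set t0 := n / (m + 1) with ht0
  have ht0a : (m + 1) * t0 ≤ n := Nat.mul_div_le n (m + 1)
  have ht0b : n < (m + 1) * (t0 + 1) := by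
    rw [ht0, Nat.mul_succ]
    have := Nat.div_add_mod n (m + 1)
    have h2 := Nat.mod_lt n (by omega : 0 < m + 1)
    omega
  have ht0c : m * K ≤ t0 := by
    rw [ht0, Nat.le_div_iff_mul_le (by omega)]
    linarith [hbig, mul_comm (m + 1) (m * K)]
  obtain ⟨x, hx0, hx1, hx2⟩ := exists_sift N hN 1 t0 (-m) (n - m * t0)
    (by
      intro p hp _ h
      exfalso
      have := Int.natCast_dvd_natCast.1 (by simpa using h : (p : ℤ) ∣ ((1 : ℕ) : ℤ))
      exact hp.one_lt.ne' (Nat.dvd_one.1 this))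
    (by
      intro p hp hpN h1 h2
      have h3 : (p : ℤ) ∣ m := by simpa using h1
      have h4 : (p : ℤ) ∣ n := by
        have := dvd_add h2 (h3.mul_right (t0 : ℤ))
        simpa using this
      exact hmn p hp hpN (by exact_mod_cast h3) (by exact_mod_cast h4))
    (by
      refine ⟨1 - t0, by norm_num, ?_⟩
      intro h
      have e : -(m : ℤ) * (1 - t0) + (n - m * t0) = n - m := by ring
      rw [e] at h
      obtain ⟨c, hc⟩ := hodd
      have : (n : ℤ) + m = 2 * c + 1 := by exact_mod_cast hc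
      omega)
  have hxK : x ≤ K := hx1
  have hmx : m * (t0 + x) ≤ n := by
    have h1 : m * x ≤ m * K := Nat.mul_le_mul le_rfl hxK
    nlinarith
  have hu : n - m * (t0 + x) ≤ t0 + x := by
    have h1 : (m + 1) * (t0 + 1) ≤ (m + 1) * (t0 + x) := Nat.mul_le_mul le_rfl (by omega)
    have h2 : n ≤ (m + 1) * (t0 + x) := by omega
    have h3 : (m + 1) * (t0 + x) = m * (t0 + x) + (t0 + x) := by ring
    omega
  have hr1 : ∀ p, p.Prime → p ≤ N → ¬ p ∣ t0 + x := by
    intro p hp hpN h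
    apply (hx2 p hp hpN).1
    have h1 : (p : ℤ) ∣ ((t0 + x : ℕ) : ℤ) := by exact_mod_cast h
    have e : (1 : ℤ) * x + t0 = ((t0 + x : ℕ) : ℤ) := by push_cast; ring
    rw [e]; exact h1
  have hr2 : ∀ p, p.Prime → p ≤ N → ¬ p ∣ n - m * (t0 + x) := by
    intro p hp hpN h
    apply (hx2 p hp hpN).2
    have h1 : (p : ℤ) ∣ ((n - m * (t0 + x) : ℕ) : ℤ) := by exact_mod_cast h
    have e : -(m : ℤ) * x + (n - m * t0) = ((n - m * (t0 + x) : ℕ) : ℤ) := by
      rw [Nat.cast_sub hmx]; push_cast; ring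
    rw [e]; exact h1
  have hu0 : 0 < n - m * (t0 + x) := by
    rcases Nat.eq_zero_or_pos (n - m * (t0 + x)) with h | h
    · exact absurd (by rw [h]; exact dvd_zero 2) (hr2 2 Nat.prime_two hN)
    · exact h
  have hfin := oa_wilson hOm hOm1 (oa_rough (by omega) hr1)
    (oa_mono (Nat.le_succ N) (oa_rough hu0 hr2)) hu
  have e : (t0 + x) * m + (n - m * (t0 + x)) = n := by
    rw [mul_comm (t0 + x) m]; omega
  rwa [e] at hfin

end Pool.Agent.W855
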