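import Pool.Agent.W855.Seeds
import Pool.Agent.W855.TDgen

/-!
# Intervals of group divisible designs at every scale
-/

set_option autoImplicit false

namespace Pool.Agent.W855

open Finset H108

/-- lower and upper ends of the intervals -/
def seqA (k a A0 : ℕ) : ℕ → ℕ
  | 0 => A0
  | m + 1 => k * seqA k a A0 m + a

theorem seqA_le {k a b A0 B0 : ℕ} (h : A0 ≤ B0) (hab : a ≤ b) (m : ℕ) :
    seqA k a A0 m ≤ seqA k b B0 m := by
  induction m with
  | zero => exact h
  | succ m ih => exact add_le_add (Nat.mul_le_mul_left k ih) hab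

theorem seqA_ge {k a A0 : ℕ} (hk : 1 ≤ k) (m : ℕ) : A0 ≤ seqA k a A0 m := by
  induction m with
  | zero => exact le_rfl
  | succ m ih =>
    have := Nat.mul_le_mul_right (seqA k a A0 m) hk
    change A0 ≤ k * seqA k a A0 m + a
    omega

theorem seqA_eq {k a A0 : ℕ} (hk : 1 ≤ k) (m : ℕ) :
    (k - 1) * seqA k a A0 m + a = k ^ m * ((k - 1) * A0 + a) := by
  obtain ⟨l, rfl⟩ : ∃ l, k = l + 1 := ⟨k - 1, by omega⟩
  simp only [Nat.add_sub_cancel]
  induction m with
  | zero => simp [seqA]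
  | succ m ih =>
    rw [pow_succ, mul_comm ((l + 1) ^ m) (l + 1), mul_assoc, ← ih, seqA]
    ring

/-- difference of the two sequences -/
theorem seqA_diff {k a b A0 N : ℕ} (hab : a + N = b) (m : ℕ) :
    seqA k a A0 m + k ^ m * N ≤ seqA k b (A0 + N) m := by
  induction m with
  | zero => simp [seqA]
  | succ m ih =>
    have := Nat.mul_le_mul_left k ih
    simp only [seqA, pow_succ]
    have e : k * (seqA k a A0 m + k ^ m * N) = k * seqA k a A0 m + k ^ m * k * N := by ring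
    omega

theorem seqA_double {k a b A0 B0 : ℕ} (h : B0 ≤ 2 * A0) (hab : b ≤ 2 * a) (m : ℕ) :
    seqA k b B0 m ≤ 2 * seqA k a A0 m := by
  induction m with
  | zero => exact h
  | succ m ih =>
    have := Nat.mul_le_mul_left k ih
    simp only [seqA]
    have e : k * (2 * seqA k a A0 m) = 2 * (k * seqA k a A0 m) := by ring
    omega

section

variable {C k g : ℕ}

/-- the base intervals -/
theorem base_interval (hT : ∀ N : ℕ, 2 ≤ N → ∀ n : ℕ, N ^ C ≤ n → OA N n) (hC : 2 ≤ C)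
    {i : ℕ} (hi : 1 ≤ i) (hk : 2 ≤ k) (hpow : ∀ l, IG {k} g (k ^ l) 0)
    (hpow1 : ∀ l, 1 ≤ l → IG {k} g (k ^ l + 1) 0) (h2 : IG {k} g (k ^ i + 2) 0)
    {l : ℕ} (hl : (i + 1) * C ≤ l) {u : ℕ} (hu1 : (k ^ i + 2) * k ^ l ≤ u)
    (hu2 : u ≤ (k ^ i + 2) * k ^ l + (k ^ i + 2)) : IG {k} g u 0 := by
  have hl1 : 1 ≤ l := by
    have : 0 < (i + 1) * C := Nat.mul_pos (by omega) (by omega)
    omega
  have hN : k ^ i + 2 ≤ k ^ (i + 1) := by
    have h2i : 2 ≤ k ^ i := by
      calc 2 ≤ k := hk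
        _ = k ^ 1 := (pow_one k).symm
        _ ≤ k ^ i := Nat.pow_le_pow_right (by omega) hi
    rw [pow_succ]
    nlinarith
  have hNC : (k ^ i + 2) ^ C ≤ k ^ l := by
    calc (k ^ i + 2) ^ C ≤ (k ^ (i + 1)) ^ C := Nat.pow_le_pow_left hN C
      _ = k ^ ((i + 1) * C) := by rw [← pow_mul]
      _ ≤ k ^ l := Nat.pow_le_pow_right (by omega) hl
  have hO : OA (k ^ i + 2) (k ^ l + 1) := hT _ (by omega) _ (by omega)
  have hsq : (k ^ i + 2) * (k ^ i + 2) < k ^ l + 1 := by
    calc (k ^ i + 2) * (k ^ i + 2) = (k ^ i + 2) ^ 2 := (sq _).symm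
      _ ≤ (k ^ i + 2) ^ C := Nat.pow_le_pow_right (by omega) hC
      _ ≤ k ^ l := hNC
      _ < k ^ l + 1 := Nat.lt_succ_self _
  have e1 : (k ^ i + 2) * (k ^ l + 1) = (k ^ i + 2) * k ^ l + (k ^ i + 2) := by ring
  have := ig_delete (k := k) (g := g) (δ := (k ^ i + 2) * k ^ l + (k ^ i + 2) - u) hO hsq
    (by omega) (by simpa using hpow i) (by simpa using hpow1 i hi) h2 (by simpa using hpow l)
    (hpow1 l hl1)
  rw [e1] at this
  have e2 : (k ^ i + 2) * k ^ l + (k ^ i + 2) - ((k ^ i + 2) * k ^ l + (k ^ i + 2) - u) = u := by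
    omega
  rwa [e2] at this

/-- from one scale to all larger scales -/
theorem scale_interval (hk : 1 ≤ k) {a b A0 B0 : ℕ} (hkk : IG {k} g k 0)
    (hkk1 : IG {k} g (k + 1) 0) (hO : ∀ t, A0 ≤ t → OA (k + 1) t)
    (hs : ∀ s, a ≤ s → s ≤ b → IG {k} g s 0) (ht : ∀ t, A0 ≤ t → t ≤ B0 → IG {k} g t 0)
    (hab : a + k ≤ b + 1) (hbA : b ≤ A0) (hAB0 : A0 ≤ B0) (m : ℕ) :
    ∀ u, seqA k a A0 m ≤ u → u ≤ seqA k b B0 m → IG {k} g u 0 := by
  induction m with
  | zero => exact ht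
  | succ m ih =>
    intro u hu1 hu2
    simp only [seqA] at hu1 hu2
    set A := seqA k a A0 m with hA
    set B := seqA k b B0 m with hB
    have hA0 : A0 ≤ A := seqA_ge hk m
    have hau : a ≤ u := by omega
    have hdiv := Nat.div_add_mod (u - a) k
    have hmod := Nat.mod_lt (u - a) hk
    have hAq : A ≤ (u - a) / k := by
      rw [Nat.le_div_iff_mul_le hk]
      rw [mul_comm]
      omega
    by_cases hq : (u - a) / k ≤ B
    · have hst : u - k * ((u - a) / k) ≤ b := by omega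
      have := ig_stepE hkk hkk1 (hO _ (hA0.trans hAq)) (ih _ hAq hq)
        (hs (u - k * ((u - a) / k)) (by omega) hst) (hst.trans (hbA.trans (hA0.trans hAq)))
      have e : k * ((u - a) / k) + (u - k * ((u - a) / k)) = u := by omega
      rwa [e] at this
    · push Not at hq
      have h1 : k * B ≤ u - a := by
        have := Nat.mul_le_mul_left k hq.le
        omega
      have hAB : A ≤ B := seqA_le hAB0 (by omega) m
      have hst : u - k * B ≤ b := by omega
      have := ig_stepE hkk hkk1 (hO _ (hA0.trans hAB)) (ih _ hAB le_rfl)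
        (hs (u - k * B) (by omega) hst) (hst.trans (hbA.trans (hA0.trans hAB)))
      have e : k * B + (u - k * B) = u := by omega
      rwa [e] at this

end

/-- all the group divisible designs that we need, for a prime power `k` -/
theorem interval_main {C : ℕ} (hT : ∀ N : ℕ, 2 ≤ N → ∀ n : ℕ, N ^ C ≤ n → OA N n) (hC : 2 ≤ C)
    {k : ℕ} (hk : IsPrimePow k) {i : ℕ} (hi : 2 * C ≤ i) {j : ℕ} (hj : C ≤ j) (m : ℕ) (u : ℕ)
    (hu1 : seqA k ((k ^ i + 2) * k ^ ((i + 1) * C)) ((k ^ i + 2) * k ^ ((i + 1) * C + 1)) m ≤ u)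
    (hu2 : u ≤ seqA k ((k ^ i + 2) * k ^ ((i + 1) * C) + (k ^ i + 2))
      ((k ^ i + 2) * k ^ ((i + 1) * C + 1) + (k ^ i + 2)) m) :
    IG {k} ((k - 1) * (k * PP k j)) u 0 := by
  have hk2 : 2 ≤ k := hk.two_le
  set w := (k - 1) * PP k j with hw
  have hPj : k ^ C ≤ PP k j := le_trans (Nat.pow_le_pow_right (by omega) hj) (pp_ge j)
  have hwj : k ^ C ≤ w := by
    refine hPj.trans ?_
    exact Nat.le_mul_of_pos_left _ (by omega)
  have hOw : OA k w := hT k hk2 w hwj
  have hk0 : IG {k} w k 0 := ig_of_oa hOw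
  have hk1 : IG {k} w (k + 1) 0 := by
    have h1 : RR k (PP k 1) := rr_pp hk 1
    have h2 := ig_inflateO (hT k hk2 _ hPj) h1
    simpa [PP, zero_mul] using h2
  have hg : (k - 1) * (k * PP k j) = w * k := by rw [hw]; ring
  rw [hg]
  have hOk : OA k k := by
    have := oa_of_nice (nice_pp hk 1 one_ne_zero)
    rwa [pow_one] at this
  have hup : ∀ v, IG {k} w v 0 → IG {k} (w * k) v 0 := by
    intro v hv
    have := ig_inflateO hOk hv
    rwa [zero_mul] at this
  have hpow : ∀ l, IG {k} (w * k) (k ^ l) 0 := fun l => hup _ (e_pow hk hk0 hk1 l)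
  have hpow1 : ∀ l, 1 ≤ l → IG {k} (w * k) (k ^ l + 1) 0 :=
    fun l hl => hup _ (e_pow_one hk hk0 hk1 l hl)
  have hbigT : ∀ t, k ^ i ≤ t → OA (k + 1) t := by
    intro t ht
    refine hT (k + 1) (by omega) t (le_trans ?_ ht)
    calc (k + 1) ^ C ≤ (k ^ 2) ^ C := Nat.pow_le_pow_left (by nlinarith) C
      _ = k ^ (2 * C) := by rw [← pow_mul]
      _ ≤ k ^ i := Nat.pow_le_pow_right (by omega) hi
  have h2 : IG {k} (w * k) (k ^ i + 2) 0 :=
    e_pow_two hk hk0 hk1 i (by omega) (hbigT _ (by omega)) hOw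
  have hpos : 0 < k ^ ((i + 1) * C) := by positivity
  have hpos' : 0 < k ^ i := by positivity
  refine scale_interval (b := (k ^ i + 2) * k ^ ((i + 1) * C) + (k ^ i + 2))
    (B0 := (k ^ i + 2) * k ^ ((i + 1) * C + 1) + (k ^ i + 2))
    (by omega) (hup _ hk0) (hup _ hk1) ?_ ?_ ?_ ?_ ?_ (Nat.le_add_right _ _) m u hu1 hu2
  · intro t ht
    apply hbigT
    refine le_trans ?_ ht
    calc k ^ i ≤ (k ^ i + 2) * 1 := by omega
      _ ≤ _ := Nat.mul_le_mul_left _ (Nat.one_le_pow _ _ (by omega))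
  · intro s hs1 hs2
    exact base_interval hT hC (by omega) hk2 hpow hpow1 h2 le_rfl hs1 hs2
  · intro s hs1 hs2
    exact base_interval hT hC (by omega) hk2 hpow hpow1 h2 (Nat.le_succ _) hs1 hs2
  · have : k ≤ k ^ i := by
      calc k = k ^ 1 := (pow_one k).symm
        _ ≤ k ^ i := Nat.pow_le_pow_right (by omega) (by omega)
    omega
  · have h3 : (k ^ i + 2) * k ^ ((i + 1) * C) + (k ^ i + 2) =
        (k ^ i + 2) * (k ^ ((i + 1) * C) + 1) := by ring
    rw [h3]
    apply Nat.mul_le_mul_left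
    rw [pow_succ]
    nlinarith

end Pool.Agent.W855
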