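import Pool.Agent.H108R2.IGops2

/-!
# Orthogonal arrays of strength two and Wilson's construction
-/

set_option autoImplicit false

namespace Pool.Agent.W855

open Finset

/-- `W` is an orthogonal array: every two different positions carry every pair of symbols in
exactly one word -/
def IsOA {N : ℕ} {X : Type} (W : Set (Fin N → X)) : Prop :=
  ∀ i j, i ≠ j → ∀ a b, ∃! w, w ∈ W ∧ w i = a ∧ w j = b

def OA (N m : ℕ) : Prop := ∃ W : Set (Fin N → Fin m), IsOA W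

theorem isOA_relabel {N : ℕ} {X Y : Type} {W : Set (Fin N → X)} (hW : IsOA W)
    (e : Fin N → (X ≃ Y)) : IsOA {w' : Fin N → Y | ∃ w ∈ W, w' = fun i => e i (w i)} := by
  intro i j hij a b
  obtain ⟨w, ⟨hw, hi, hj⟩, hu⟩ := hW i j hij ((e i).symm a) ((e j).symm b)
  refine ⟨fun i => e i (w i), ⟨⟨w, hw, rfl⟩, by simp [hi], by simp [hj]⟩, ?_⟩
  rintro w' ⟨⟨v, hv, rfl⟩, h1, h2⟩
  have : v = w := hu v ⟨hv, by rw [← h1]; simp, by rw [← h2]; simp⟩
  rw [this]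

theorem oa_of_isOA {N : ℕ} {X : Type} [Finite X] {W : Set (Fin N → X)} (hW : IsOA W) {m : ℕ}
    (hm : Nat.card X = m) : OA N m := by
  have e : X ≃ Fin m := (Finite.card_eq.1 (by rw [hm, Nat.card_fin])).some
  exact ⟨_, isOA_relabel hW (fun _ => e)⟩

theorem oa_mono {N N' m : ℕ} (h : N' ≤ N) (hO : OA N m) : OA N' m := by
  obtain ⟨W, hW⟩ := hO
  refine ⟨{w' | ∃ w ∈ W, w' = fun i => w (Fin.castLE h i)}, ?_⟩
  intro i j hij a b
  obtain ⟨w, ⟨hw, hi, hj⟩, hu⟩ := hW (Fin.castLE h i) (Fin.castLE h j)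
    (fun hh => hij (Fin.castLE_injective h hh)) a b
  refine ⟨fun i => w (Fin.castLE h i), ⟨⟨w, hw, rfl⟩, hi, hj⟩, ?_⟩
  rintro w' ⟨⟨v, hv, rfl⟩, h1, h2⟩
  rw [hu v ⟨hv, h1, h2⟩]

theorem oa_of_nice {N m : ℕ} (h : H108.Nice N m) : OA N m := by
  obtain ⟨R, _, _, x, hR, hx⟩ := h
  have : IsOA {w : Fin N → R | ∃ c d, w = fun i => c * x i + d} := by
    intro i j hij a b
    obtain ⟨u, hu⟩ := hx i j hij
    refine ⟨fun k => (a - b) * ↑u⁻¹ * x k + (a - (a - b) * ↑u⁻¹ * x i), ⟨⟨_, _, rfl⟩, ?_, ?_⟩, ?_⟩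
    · ring
    · have h1 : (↑u⁻¹ : R) * (x i - x j) = 1 := by rw [← hu]; simp
      linear_combination (-(a - b)) * h1
    · rintro w ⟨⟨c, d, rfl⟩, h1, h2⟩
      have h1' : c * x i + d = a := h1
      have h2' : c * x j + d = b := h2
      have h3 : c = (a - b) * ↑u⁻¹ := by
        have h4 : c * (x i - x j) = a - b := by linear_combination h1' - h2'
        rw [← hu] at h4
        rw [← h4, mul_assoc, Units.mul_inv, mul_one]
      funext k
      rw [← h3]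
      linear_combination h1'
  exact oa_of_isOA this (by rw [Nat.card_eq_fintype_card, hR])

theorem oa_trivial {N m : ℕ} (hN : N < 2) : OA N m := by
  refine ⟨∅, ?_⟩
  intro i j hij
  exact absurd (Fin.ext (by omega)) hij

/-- normal form: the constant word `none` is in the array -/
theorem oa_norm {N m : ℕ} (hN : 2 ≤ N) (h : OA N (m + 1)) :
    ∃ W : Set (Fin N → Option (Fin m)), IsOA W ∧ (fun _ => none) ∈ W := by
  obtain ⟨W, hW⟩ := h
  obtain ⟨w0, ⟨hw0, -, -⟩, -⟩ := hW ⟨0, by omega⟩ ⟨1, by omega⟩ (by simp) 0 0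
  refine ⟨_, isOA_relabel hW (fun i => (Equiv.swap (w0 i) 0).trans (finSuccEquiv m)), ?_⟩
  refine ⟨w0, hw0, ?_⟩
  funext i
  simp

/-- words of the first kind -/
def wf {t m N : ℕ} (u : ℕ) (b : Fin (N + 1) → Fin t) (v : Fin N → Fin m) :
    Fin N → (Fin t × Fin m) ⊕ Fin u := fun i => Sum.inl (b i.castSucc, v i)

/-- words of the second kind -/
def wg {t m u N : ℕ} (b : Fin (N + 1) → Fin t) (v : Fin N → Option (Fin m)) (h : Fin u) :
    Fin N → (Fin t × Fin m) ⊕ Fin u :=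
  fun i => (v i).elim (Sum.inr h) (fun a => Sum.inl (b i.castSucc, a))

theorem wf_inl {t m u N : ℕ} (b : Fin (N + 1) → Fin t) (v : Fin N → Fin m) (i : Fin N)
    (x : Fin t) (p : Fin m) : wf u b v i = Sum.inl (x, p) ↔ b i.castSucc = x ∧ v i = p := by
  simp [wf]

theorem wf_inr {t m u N : ℕ} (b : Fin (N + 1) → Fin t) (v : Fin N → Fin m) (i : Fin N)
    (y : Fin u) : ¬ wf u b v i = Sum.inr y := by
  simp [wf]

theorem wg_inl {t m u N : ℕ} (b : Fin (N + 1) → Fin t) (v : Fin N → Option (Fin m)) (h : Fin u)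
    (i : Fin N) (x : Fin t) (p : Fin m) :
    wg b v h i = Sum.inl (x, p) ↔ b i.castSucc = x ∧ v i = some p := by
  unfold wg
  rcases v i with _ | a <;> simp

theorem wg_inr {t m u N : ℕ} (b : Fin (N + 1) → Fin t) (v : Fin N → Option (Fin m)) (h : Fin u)
    (i : Fin N) (y : Fin u) : wg b v h i = Sum.inr y ↔ v i = none ∧ h = y := by
  unfold wg
  rcases v i with _ | a <;> simp

/-- Wilson's construction of transversal designs -/
theorem oa_wilson {N m t u : ℕ} (h1 : OA N m) (h2 : OA N (m + 1)) (h3 : OA (N + 1) t)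
    (h4 : OA N u) (hut : u ≤ t) : OA N (t * m + u) := by
  rcases Nat.lt_or_ge N 2 with hN | hN
  · exact oa_trivial hN
  obtain ⟨V, hV⟩ := h1
  obtain ⟨U, hU, hU0⟩ := oa_norm hN h2
  obtain ⟨B, hB⟩ := h3
  obtain ⟨Q, hQ⟩ := h4
  have hc : ∀ i : Fin N, i.castSucc ≠ Fin.last N := fun i => (Fin.castSucc_lt_last i).ne
  have hW : IsOA ({w : Fin N → (Fin t × Fin m) ⊕ Fin u |
      (∃ b ∈ B, u ≤ (b (Fin.last N)).val ∧ ∃ v ∈ V, w = wf u b v) ∨
      (∃ b ∈ B, ∃ h : Fin u, (b (Fin.last N)).val = h.val ∧ ∃ v ∈ U, v ≠ (fun _ => none) ∧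
        w = wg b v h) ∨ (∃ q ∈ Q, w = fun i => Sum.inr (q i))}) := by
    intro i j hij a b
    have hij' : i.castSucc ≠ j.castSucc := fun h => hij (Fin.castSucc_injective _ h)
    rcases a with ⟨x, p⟩ | x <;> rcases b with ⟨y, q⟩ | y
    · -- both inl
      obtain ⟨b, ⟨hb, hbi, hbj⟩, hbu⟩ := hB _ _ hij' x y
      by_cases hh : u ≤ (b (Fin.last N)).val
      · obtain ⟨v, ⟨hv, hvi, hvj⟩, hvu⟩ := hV i j hij p q
        refine ⟨wf u b v, ⟨Or.inl ⟨b, hb, hh, v, hv, rfl⟩, (wf_inl _ _ _ _ _).2 ⟨hbi, hvi⟩,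
          (wf_inl _ _ _ _ _).2 ⟨hbj, hvj⟩⟩, ?_⟩
        rintro w ⟨⟨b', hb', hh', v', hv', rfl⟩ | ⟨b', hb', h', hh', v', hv', hne, rfl⟩ |
          ⟨q', hq', rfl⟩, e1, e2⟩
        · rw [wf_inl] at e1 e2
          rw [hbu b' ⟨hb', e1.1, e2.1⟩, hvu v' ⟨hv', e1.2, e2.2⟩]
        · exfalso
          rw [wg_inl] at e1 e2
          have := hbu b' ⟨hb', e1.1, e2.1⟩
          subst this
          have := h'.2
          omega
        · simp at e1
      · obtain ⟨v, ⟨hv, hvi, hvj⟩, hvu⟩ := hU i j hij (some p) (some q)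
        refine ⟨wg b v ⟨(b (Fin.last N)).val, by omega⟩, ⟨Or.inr (Or.inl ⟨b, hb, _, rfl, v, hv, ?_,
          rfl⟩), (wg_inl _ _ _ _ _ _).2 ⟨hbi, hvi⟩, (wg_inl _ _ _ _ _ _).2 ⟨hbj, hvj⟩⟩, ?_⟩
        · intro hn
          rw [hn] at hvi
          simp at hvi
        rintro w ⟨⟨b', hb', hh', v', hv', rfl⟩ | ⟨b', hb', h', hh', v', hv', hne, rfl⟩ |
          ⟨q', hq', rfl⟩, e1, e2⟩
        · rw [wf_inl] at e1 e2
          have := hbu b' ⟨hb', e1.1, e2.1⟩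
          subst this
          exact absurd hh' hh
        · rw [wg_inl] at e1 e2
          have := hbu b' ⟨hb', e1.1, e2.1⟩
          subst this
          rw [hvu v' ⟨hv', e1.2, e2.2⟩]
          congr 1
          exact Fin.ext hh'.symm
        · simp at e1
    · -- inl, inr
      obtain ⟨b, ⟨hb, hbi, hbl⟩, hbu⟩ := hB _ _ (hc i) x ⟨y.val, by omega⟩
      obtain ⟨v, ⟨hv, hvi, hvj⟩, hvu⟩ := hU i j hij (some p) none
      refine ⟨wg b v y, ⟨Or.inr (Or.inl ⟨b, hb, y, by rw [hbl], v, hv, ?_, rfl⟩),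
        (wg_inl _ _ _ _ _ _).2 ⟨hbi, hvi⟩, (wg_inr _ _ _ _ _).2 ⟨hvj, rfl⟩⟩, ?_⟩
      · intro hn
        rw [hn] at hvi
        simp at hvi
      rintro w ⟨⟨b', hb', hh', v', hv', rfl⟩ | ⟨b', hb', h', hh', v', hv', hne, rfl⟩ |
        ⟨q', hq', rfl⟩, e1, e2⟩
      · exact absurd e2 (wf_inr _ _ _ _)
      · rw [wg_inl] at e1
        rw [wg_inr] at e2
        have := hbu b' ⟨hb', e1.1, by apply Fin.ext; simp [hh', e2.2]⟩
        subst this
        rw [hvu v' ⟨hv', e1.2, e2.1⟩, e2.2]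
      · simp at e1
    · -- inr, inl
      obtain ⟨b, ⟨hb, hbj, hbl⟩, hbu⟩ := hB _ _ (hc j) y ⟨x.val, by omega⟩
      obtain ⟨v, ⟨hv, hvi, hvj⟩, hvu⟩ := hU i j hij none (some q)
      refine ⟨wg b v x, ⟨Or.inr (Or.inl ⟨b, hb, x, by rw [hbl], v, hv, ?_, rfl⟩),
        (wg_inr _ _ _ _ _).2 ⟨hvi, rfl⟩, (wg_inl _ _ _ _ _ _).2 ⟨hbj, hvj⟩⟩, ?_⟩
      · intro hn
        rw [hn] at hvj
        simp at hvj
      rintro w ⟨⟨b', hb', hh', v', hv', rfl⟩ | ⟨b', hb', h', hh', v', hv', hne, rfl⟩ |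
        ⟨q', hq', rfl⟩, e1, e2⟩
      · exact absurd e1 (wf_inr _ _ _ _)
      · rw [wg_inl] at e2
        rw [wg_inr] at e1
        have := hbu b' ⟨hb', e2.1, by apply Fin.ext; simp [hh', e1.2]⟩
        subst this
        rw [hvu v' ⟨hv', e1.1, e2.2⟩, e1.2]
      · simp at e2
    · -- both inr
      obtain ⟨v, ⟨hv, hvi, hvj⟩, hvu⟩ := hQ i j hij x y
      refine ⟨fun i => Sum.inr (v i), ⟨Or.inr (Or.inr ⟨v, hv, rfl⟩), by simp [hvi],
        by simp [hvj]⟩, ?_⟩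
      rintro w ⟨⟨b', hb', hh', v', hv', rfl⟩ | ⟨b', hb', h', hh', v', hv', hne, rfl⟩ |
        ⟨q', hq', rfl⟩, e1, e2⟩
      · exact absurd e1 (wf_inr _ _ _ _)
      · exfalso
        rw [wg_inr] at e1 e2
        obtain ⟨v0, -, hv0⟩ := hU i j hij none none
        apply hne
        rw [hv0 v' ⟨hv', e1.1, e2.1⟩, hv0 _ ⟨hU0, rfl, rfl⟩]
      · simp only [Sum.inr.injEq] at e1 e2
        rw [hvu q' ⟨hq', e1, e2⟩]
  exact oa_of_isOA hW (by simp)

end Pool.Agent.W855
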