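import Pool.Agent.W855.PolyInt

/-!
# Final form
-/

set_option autoImplicit false

namespace Pool.Agent.W855

open Finset H108

/-- numerical part: `lo` is close to `k ^ d` -/
theorem lo_bounds {k Q q1 P P' K1 L X N Am : ℕ} (hk : 3 ≤ k) (hq1 : q1 * k = Q)
    (hP' : (k - 1) * P' + 1 = Q) (hP : (k - 1) * P + 1 = q1) (hK1 : K1 = k * Q ^ 2)
    (hN : N = K1 + 2) (hq : k ≤ q1) (hX : 1 ≤ X) (hL : 1 ≤ L)
    (hAm : (k - 1) * Am + N * L = X * ((k - 1) * (N * (L * k)) + N * L)) :
    Q ^ 2 * k ^ 2 * K1 * L * X ≤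
      (k - 1) * (k * (k * P' ^ 2 * Am + P * (Am + k * P' ^ 2))) + 1 ∧
    (k - 1) * (k * (k * P' ^ 2 * Am + P * (Am + k * P' ^ 2))) + 1 ≤
      2 * (Q ^ 2 * k ^ 2 * K1 * L * X) := by
  obtain ⟨l, rfl⟩ : ∃ l, k = l + 1 := ⟨k - 1, by omega⟩
  simp only [Nat.add_sub_cancel] at *
  have hl : 2 ≤ l := by omega
  have hQ9 : (l + 1) * (l + 1) ≤ Q := by rw [← hq1]; exact Nat.mul_le_mul_right _ hq
  have hQ2 : 2 * (l + 1) ≤ Q := by nlinarith
  have hNL : 0 < N * L := Nat.mul_pos (by omega) hL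
  constructor
  · -- lower bound
    have h1 : X * N * L * (l * (l + 1)) ≤ l * Am := by
      have h2 : N * L ≤ X * (N * L) := Nat.le_mul_of_pos_left _ hX
      nlinarith
    have h3 : Q ^ 2 ≤ (l + 1) * (l * P' ^ 2) := by
      have h4 : l * Q ^ 2 ≤ l * ((l + 1) * (l * P' ^ 2)) := by
        have e : l * ((l + 1) * (l * P' ^ 2)) = (l + 1) * (l * P') ^ 2 := by ring
        rw [e]
        have h5 : l * P' + 1 = Q := hP'
        rw [← h5]
        set y := l * P' with hy
        have h6 : 2 * (l + 1) ≤ y + 1 := by omega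
        nlinarith
      exact Nat.le_of_mul_le_mul_left h4 (by omega)
    calc Q ^ 2 * (l + 1) ^ 2 * K1 * L * X
        ≤ ((l + 1) * (l * P' ^ 2)) * (l + 1) ^ 2 * N * L * X := by
          gcongr
          omega
      _ = ((l + 1) * ((l + 1) * P' ^ 2)) * (X * N * L * (l * (l + 1))) := by ring
      _ ≤ ((l + 1) * ((l + 1) * P' ^ 2)) * (l * Am) := Nat.mul_le_mul_left _ h1
      _ = l * ((l + 1) * ((l + 1) * P' ^ 2 * Am)) := by ring
      _ ≤ l * ((l + 1) * ((l + 1) * P' ^ 2 * Am + P * (Am + (l + 1) * P' ^ 2))) := by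
          gcongr
          omega
      _ ≤ _ := Nat.le_succ _
  · -- upper bound
    have hPa : l * P + 1 ≤ N * L := by
      rw [hP]
      calc q1 ≤ q1 * (l + 1) := Nat.le_mul_of_pos_right _ (by omega)
        _ = Q := hq1
        _ ≤ N * 1 := by rw [hN, hK1]; nlinarith
        _ ≤ N * L := Nat.mul_le_mul_left _ hL
    have hP'0 : 0 < P' := by
      rcases Nat.eq_zero_or_pos P' with h | h
      · rw [h] at hP'
        omega
      · exact h
    -- `A ≤ k (G + H) X N L (k² - k + 1)`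
    have h1 : l * ((l + 1) * ((l + 1) * P' ^ 2 * Am + P * (Am + (l + 1) * P' ^ 2))) + 1 ≤
        (l + 1) * ((l + 1) * P' ^ 2 + P) * (X * N * L * (l * (l + 1) + 1)) := by
      have e1 : l * ((l + 1) * ((l + 1) * P' ^ 2 * Am + P * (Am + (l + 1) * P' ^ 2))) + 1 =
          (l + 1) * ((l + 1) * P' ^ 2 + P) * (l * Am) +
            ((l + 1) * ((l + 1) * P' ^ 2) * (l * P) + 1) := by ring
      have e2 : (l + 1) * ((l + 1) * P' ^ 2 + P) * (X * N * L * (l * (l + 1) + 1)) =
          (l + 1) * ((l + 1) * P' ^ 2 + P) * (l * Am) +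
            (l + 1) * ((l + 1) * P' ^ 2 + P) * (N * L) := by
        have e3 : X * N * L * (l * (l + 1) + 1) = l * Am + N * L := by rw [hAm]; ring
        rw [e3]; ring
      rw [e1, e2]
      apply Nat.add_le_add_left
      have h5 : 1 ≤ (l + 1) * ((l + 1) * P' ^ 2) :=
        Nat.mul_pos (by omega) (Nat.mul_pos (by omega) (by positivity))
      calc (l + 1) * ((l + 1) * P' ^ 2) * (l * P) + 1
          ≤ (l + 1) * ((l + 1) * P' ^ 2) * (l * P) + (l + 1) * ((l + 1) * P' ^ 2) := by omega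
        _ = (l + 1) * ((l + 1) * P' ^ 2) * (l * P + 1) := by ring
        _ ≤ (l + 1) * ((l + 1) * P' ^ 2) * (N * L) := Nat.mul_le_mul_left _ hPa
        _ ≤ _ := by
            gcongr
            omega
    have h2 : l ^ 2 * ((l + 1) * P' ^ 2 + P) ≤ (l + 1) * Q ^ 2 := by
      have e : l ^ 2 * ((l + 1) * P' ^ 2 + P) = (l + 1) * (l * P') ^ 2 + l * (l * P) := by ring
      rw [e]
      have h6 : l * P ≤ q1 := by omega
      have h7 : l * (l * P) ≤ Q := by
        calc l * (l * P) ≤ l * q1 := Nat.mul_le_mul_left _ h6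
          _ ≤ q1 * (l + 1) := by nlinarith
          _ = Q := hq1
      have h8 : l * P' + 1 = Q := hP'
      set y := l * P' with hy
      rw [← h8]
      have h9 : l * (l * P) ≤ y + 1 := by omega
      have e9 : (l + 1) * (y + 1) ^ 2 = (l + 1) * y ^ 2 + (l + 1) * (2 * y + 1) := by ring
      have h10 : 1 * (2 * y + 1) ≤ (l + 1) * (2 * y + 1) := Nat.mul_le_mul_right _ (by omega)
      omega
    have h3 : N * (l * (l + 1) + 1) ≤ 2 * l ^ 2 * K1 := by
      have hK : 2 * (l * (l + 1) + 1) ≤ K1 := by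
        rw [hK1]
        have : (l + 1) * (l + 1) ≤ Q ^ 2 := hQ9.trans (by nlinarith)
        nlinarith
      rw [hN]
      have h9 : l * (l + 1) + 1 + 1 ≤ 2 * l ^ 2 := by nlinarith
      set T := l * (l + 1) + 1 with hT
      calc (K1 + 2) * T = K1 * T + 2 * T := by ring
        _ ≤ K1 * T + K1 * 1 := by omega
        _ = K1 * (T + 1) := by ring
        _ ≤ K1 * (2 * l ^ 2) := Nat.mul_le_mul_left _ h9
        _ = 2 * l ^ 2 * K1 := by ring
    have h4 : l ^ 2 * (l * ((l + 1) * ((l + 1) * P' ^ 2 * Am + P * (Am + (l + 1) * P' ^ 2))) + 1) ≤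
        l ^ 2 * (2 * (Q ^ 2 * (l + 1) ^ 2 * K1 * L * X)) := by
      calc _ ≤ l ^ 2 * ((l + 1) * ((l + 1) * P' ^ 2 + P) * (X * N * L * (l * (l + 1) + 1))) :=
            Nat.mul_le_mul_left _ h1
        _ = (l ^ 2 * ((l + 1) * P' ^ 2 + P)) * ((l + 1) * (X * L) * (N * (l * (l + 1) + 1))) := by
            ring
        _ ≤ ((l + 1) * Q ^ 2) * ((l + 1) * (X * L) * (2 * l ^ 2 * K1)) := by gcongr
        _ = _ := by ring
    exact Nat.le_of_mul_le_mul_left h4 (by positivity)

/-- all admissible orders in an interval above every large power of `k` -/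
theorem poly_main : ∃ C : ℕ, ∀ k : ℕ, IsPrimePow k → 3 ≤ k → ∀ d : ℕ, C ≤ d →
    ∃ A : ℕ, k ^ d ≤ A ∧ A ≤ 2 * k ^ d ∧ ∀ n : ℕ, A ≤ n → k ^ C * (n - A) ≤ A →
      Adm k n → IG {k} 1 n 0 := by
  obtain ⟨C, hC, hT⟩ := td_gen
  set i := 2 * C + 5 with hi
  set l0 := (i + 1) * C with hl0
  refine ⟨2 * C + 6 + i + l0, ?_⟩
  intro k hk hk3 d hd
  obtain ⟨m, rfl⟩ : ∃ m, d = 2 * C + 6 + i + l0 + m := ⟨d - (2 * C + 6 + i + l0), by omega⟩
  set a := (k ^ i + 2) * k ^ ((i + 1) * C) with ha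
  set A0 := (k ^ i + 2) * k ^ ((i + 1) * C + 1) with hA0
  set Am := seqA k a A0 m with hAm
  set Bm := seqA k (a + (k ^ i + 2)) (A0 + (k ^ i + 2)) m with hBm
  have hdiff : Am + k ^ m * (k ^ i + 2) ≤ Bm := seqA_diff rfl m
  have hX : 1 ≤ k ^ m := Nat.one_le_pow _ _ (by omega)
  have hP' : (k - 1) * PP k (C + 1) + 1 = k ^ (C + 2) := pp_eq (by omega) (C + 1)
  have hP : (k - 1) * PP k C + 1 = k ^ (C + 1) := pp_eq (by omega) C
  have hK1 : k ^ i = k * (k ^ (C + 2)) ^ 2 := by
    rw [← pow_mul, ← pow_succ']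
    congr 1
    omega
  have hP'lt : PP k (C + 1) < k ^ (C + 2) := pp_le (by omega) (C + 1)
  have hGN : k * PP k (C + 1) ^ 2 ≤ k ^ i := by
    rw [hK1]
    gcongr
  have hHN : PP k C ≤ k ^ i := by
    refine le_trans ?_ hGN
    have h1 : PP k C ≤ PP k (C + 1) := by
      rw [PP]
      have := Nat.le_mul_of_pos_left (PP k C) (by omega : 0 < k)
      omega
    calc PP k C ≤ PP k (C + 1) := h1
      _ ≤ PP k (C + 1) * (k * PP k (C + 1)) := Nat.le_mul_of_pos_right _
          (Nat.mul_pos (by omega) (pp_pos _))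
      _ = _ := by ring
  have hG0 : 0 < k * PP k (C + 1) ^ 2 := by
    have := pp_pos (k := k) (C + 1)
    positivity
  have hb := lo_bounds (k := k) (Q := k ^ (C + 2)) (q1 := k ^ (C + 1)) (P := PP k C)
    (P' := PP k (C + 1)) (K1 := k ^ i) (L := k ^ l0) (X := k ^ m) (N := k ^ i + 2) (Am := Am)
    hk3 (by rw [← pow_succ]) hP' hP hK1 rfl (by
      calc k = k ^ 1 := (pow_one k).symm
        _ ≤ k ^ (C + 1) := Nat.pow_le_pow_right (by omega) (by omega)) hX
      (Nat.one_le_pow _ _ (by omega)) (by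
      have h1 := seqA_eq (k := k) (a := a) (A0 := A0) (by omega) m
      rw [← pow_succ]
      exact h1)
  have hpow : (k ^ (C + 2)) ^ 2 * k ^ 2 * k ^ i * k ^ l0 * k ^ m =
      k ^ (2 * C + 6 + i + l0 + m) := by
    rw [← pow_mul, ← pow_add, ← pow_add, ← pow_add, ← pow_add]
    congr 1
    omega
  rw [hpow] at hb
  set G := k * PP k (C + 1) ^ 2 with hG
  set H := PP k C with hH
  set lo := G * Am + H * (Am + G) with hlo
  set hi' := G * Bm + H * Am with hhi
  refine ⟨(k - 1) * (k * lo) + 1, hb.1, hb.2, ?_⟩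
  intro n hn1 hn2 hadm
  -- the upper end
  have hup : n ≤ (k - 1) * (k * hi') + 1 := by
    have h1 : n - ((k - 1) * (k * lo) + 1) ≤ 2 * k ^ m := by
      have h2 : k ^ (2 * C + 6 + i + l0) * (n - ((k - 1) * (k * lo) + 1)) ≤
          k ^ (2 * C + 6 + i + l0) * (2 * k ^ m) := by
        refine hn2.trans (hb.2.trans (le_of_eq ?_))
        rw [pow_add k (2 * C + 6 + i + l0) m]; ring
      exact Nat.le_of_mul_le_mul_left h2 (by positivity)
    have h3 : lo + k ^ m ≤ hi' := by
      have h4 : G * (Am + k ^ m * (k ^ i + 2)) ≤ G * Bm := Nat.mul_le_mul_left _ hdiff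
      have h5 : H * G + k ^ m ≤ G * (k ^ m * (k ^ i + 2)) := by
        calc H * G + k ^ m ≤ k ^ i * G + k ^ m := by gcongr
          _ ≤ G * (k ^ m * k ^ i) + G * k ^ m := by
              apply Nat.add_le_add
              · rw [mul_comm (k ^ i) G]
                apply Nat.mul_le_mul_left
                exact Nat.le_mul_of_pos_left _ hX
              · exact Nat.le_mul_of_pos_left _ hG0
          _ ≤ G * (k ^ m * (k ^ i + 2)) := by
              rw [← Nat.mul_add]
              apply Nat.mul_le_mul_left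
              have : k ^ m * (k ^ i + 2) = k ^ m * k ^ i + k ^ m * 2 := by ring
              omega
      have e1 : G * (Am + k ^ m * (k ^ i + 2)) = G * Am + G * (k ^ m * (k ^ i + 2)) := by ring
      have e2 : lo = G * Am + H * Am + H * G := by rw [hlo]; ring
      omega
    have h6 : 2 * k ^ m ≤ (k - 1) * (k * k ^ m) := by
      rw [← mul_assoc]
      apply Nat.mul_le_mul_right
      have : 1 * 2 ≤ (k - 1) * k := Nat.mul_le_mul (by omega) (by omega)
      omega
    have h7 : (k - 1) * (k * lo) + (k - 1) * (k * k ^ m) ≤ (k - 1) * (k * hi') := by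
      rw [← Nat.mul_add, ← Nat.mul_add]
      exact Nat.mul_le_mul_left _ (Nat.mul_le_mul_left _ h3)
    omega
  obtain ⟨R, r, hr, hnr⟩ := two_classes hk hadm
  have hr1 : k * lo ≤ r := by
    have : (k - 1) * (k * lo) ≤ (k - 1) * r := by omega
    exact Nat.le_of_mul_le_mul_left this (by omega)
  have hr2 : r ≤ k * hi' := by
    have : (k - 1) * r ≤ (k - 1) * (k * hi') := by omega
    exact Nat.le_of_mul_le_mul_left this (by omega)
  have hR1 : lo ≤ R := by
    by_contra hcon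
    push Not at hcon
    have : k * (R + 1) ≤ k * lo := Nat.mul_le_mul_left k hcon
    have e : k * (R + 1) = k * R + k := by ring
    omega
  have hR2 : R ≤ hi' := by
    have : k * R ≤ k * hi' := by omega
    exact Nat.le_of_mul_le_mul_left this (by omega)
  obtain ⟨u, u', hu1, hu2, hu1', hu2', hRu⟩ := repr_interval (G := G) (H := H) (A := Am) (B := Bm)
    (R := R) hG0 (Nat.Coprime.mul_right (coprime_pp C)
      (Nat.Coprime.pow_right 2 (coprime_pp_succ C))) (by
      have : k ^ i ≤ k ^ m * (k ^ i + 2) := by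
        calc k ^ i ≤ 1 * (k ^ i + 2) := by omega
          _ ≤ _ := Nat.mul_le_mul_right _ hX
      omega) hR1 hR2
  have hfin : RR k r := rr_classes hT hC hk (i := i) (j := C) (by omega) le_rfl
    (Nat.mul_le_mul_right _ (by omega)) m hu1 hu2 hu1' hu2' r (by
      rw [← hG, ← hH, ← hRu]
      exact hr)
  rw [hnr]
  exact steiner_of_rr (by omega) hfin

end Pool.Agent.W855
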