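import Pool.Agent.W855.Intervals

/-!
# Assembly: all admissible orders in intervals above every large power of `k`
-/

set_option autoImplicit false

namespace Pool.Agent.W855

open Finset H108

/-- the two classes of values of `r` -/
theorem two_classes {k n : ℕ} (hk : IsPrimePow k) (hA : Adm k n) :
    ∃ R r : ℕ, (r = k * R ∨ r = k * R + 1) ∧ n = (k - 1) * r + 1 := by
  have hk2 : 2 ≤ k := hk.two_le
  obtain ⟨⟨r, hr⟩, h2, h3⟩ := hA
  have hn : n = (k - 1) * r + 1 := by omega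
  have h4 : k ∣ r * (r - 1) := by
    rw [hn, Nat.add_sub_cancel] at h2
    have h5 : (k - 1) * k ∣ (k - 1) * (((k - 1) * r + 1) * r) := by
      have e : ((k - 1) * r + 1) * ((k - 1) * r) = (k - 1) * (((k - 1) * r + 1) * r) := by ring
      rw [← e, mul_comm (k - 1) k]
      exact h2
    have h6 : k ∣ ((k - 1) * r + 1) * r := Nat.dvd_of_mul_dvd_mul_left (by omega) h5
    rcases Nat.eq_zero_or_pos r with rfl | hr0
    · simp
    · have e : ((k - 1) * r + 1) * r + r * (r - 1) = k * (r * r) := by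
        obtain ⟨l, rfl⟩ : ∃ l, k = l + 1 := ⟨k - 1, by omega⟩
        obtain ⟨s, rfl⟩ : ∃ s, r = s + 1 := ⟨r - 1, by omega⟩
        simp only [Nat.add_sub_cancel]
        ring
      have h7 : k ∣ ((k - 1) * r + 1) * r + r * (r - 1) := by rw [e]; exact dvd_mul_right _ _
      exact (Nat.dvd_add_right h6).1 h7
  rcases Nat.eq_zero_or_pos r with rfl | hr0
  · exact ⟨0, 0, Or.inl (by simp), hn⟩
  · have hcop : Nat.Coprime r (r - 1) := by
      have := Nat.coprime_self_add_right (m := r - 1) (n := 1)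
      obtain ⟨s, rfl⟩ : ∃ s, r = s + 1 := ⟨r - 1, by omega⟩
      simp
    rcases (hcop.isPrimePow_dvd_mul hk).1 h4 with ⟨R, hR⟩ | ⟨R, hR⟩
    · exact ⟨R, r, Or.inl hR, hn⟩
    · exact ⟨R, r, Or.inr (by omega), hn⟩

/-- representation of numbers by `G u + H u'` with `u, u'` in an interval -/
theorem repr_interval {G H A B R : ℕ} (hG : 0 < G) (hcop : Nat.Coprime H G)
    (hAB : A + G ≤ B + 1) (h1 : G * A + H * (A + G) ≤ R) (h2 : R ≤ G * B + H * A) :
    ∃ u u', A ≤ u ∧ u ≤ B ∧ A ≤ u' ∧ u' ≤ B ∧ R = G * u + H * u' := by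
  have : NeZero G := ⟨hG.ne'⟩
  obtain ⟨v, hv1, hv2⟩ : ∃ v, v < G ∧ ((H * (A + v) : ℕ) : ZMod G) = (R : ZMod G) := by
    refine ⟨((R : ZMod G) * (H : ZMod G)⁻¹ - (A : ZMod G)).val, ZMod.val_lt _, ?_⟩
    have h3 := ZMod.coe_mul_inv_eq_one H hcop
    push_cast
    rw [ZMod.natCast_zmod_val]
    calc (H : ZMod G) * ((A : ZMod G) + ((R : ZMod G) * (H : ZMod G)⁻¹ - (A : ZMod G)))
        = (R : ZMod G) * ((H : ZMod G) * (H : ZMod G)⁻¹) := by ring
      _ = R := by rw [h3, mul_one]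
  have hle : H * (A + v) ≤ H * (A + G) := Nat.mul_le_mul_left H (by omega)
  have hge : H * A ≤ H * (A + v) := Nat.mul_le_mul_left H (by omega)
  have hleR : H * (A + v) ≤ R := by omega
  have hdvd : G ∣ R - H * (A + v) := by
    rw [← Nat.modEq_iff_dvd' hleR]
    exact (ZMod.natCast_eq_natCast_iff _ _ _).1 hv2
  obtain ⟨u, hu⟩ := hdvd
  refine ⟨u, A + v, ?_, ?_, by omega, by omega, by omega⟩
  · by_contra hcon
    push Not at hcon
    have : G * u ≤ G * A := Nat.mul_le_mul_left G hcon.le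
    have h5 : G * u ≥ G * A := by omega
    have h6 : G * u < G * A := Nat.mul_lt_mul_of_pos_left hcon hG
    omega
  · by_contra hcon
    push Not at hcon
    have h6 : G * B < G * u := Nat.mul_lt_mul_of_pos_left hcon hG
    omega

theorem coprime_pp {k : ℕ} (j : ℕ) : Nat.Coprime (PP k j) k := by
  cases j with
  | zero => simp [PP]
  | succ j =>
    simp [PP]

theorem coprime_pp_succ {k : ℕ} (j : ℕ) : Nat.Coprime (PP k j) (PP k (j + 1)) := by
  rw [PP]
  simp

/-- the two residue classes -/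
theorem rr_classes {C : ℕ} (hT : ∀ N : ℕ, 2 ≤ N → ∀ n : ℕ, N ^ C ≤ n → OA N n) (hC : 2 ≤ C)
    {k : ℕ} (hk : IsPrimePow k) {i j : ℕ} (hi : 2 * C ≤ i) (hj : C ≤ j)
    (hij : (j + 3) * C ≤ (i + 1) * C) (m : ℕ) {u u' : ℕ}
    (hu1 : seqA k ((k ^ i + 2) * k ^ ((i + 1) * C)) ((k ^ i + 2) * k ^ ((i + 1) * C + 1)) m ≤ u)
    (hu2 : u ≤ seqA k ((k ^ i + 2) * k ^ ((i + 1) * C) + (k ^ i + 2))
      ((k ^ i + 2) * k ^ ((i + 1) * C + 1) + (k ^ i + 2)) m)
    (hu1' : seqA k ((k ^ i + 2) * k ^ ((i + 1) * C)) ((k ^ i + 2) * k ^ ((i + 1) * C + 1)) m ≤ u')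
    (hu2' : u' ≤ seqA k ((k ^ i + 2) * k ^ ((i + 1) * C) + (k ^ i + 2))
      ((k ^ i + 2) * k ^ ((i + 1) * C + 1) + (k ^ i + 2)) m) (r : ℕ)
    (hr : r = k * (k * PP k (j + 1) ^ 2 * u + PP k j * u') ∨
      r = k * (k * PP k (j + 1) ^ 2 * u + PP k j * u') + 1) : RR k r := by
  have hk2 : 2 ≤ k := hk.two_le
  have hE := interval_main hT hC hk hi hj m u' hu1' hu2'
  have hE' := interval_main hT hC hk hi (by omega : C ≤ j + 1) m u hu1 hu2
  have hOA : ∀ l, C ≤ l → OA k ((k - 1) * PP k l) := by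
    intro l hl
    apply hT k hk2
    calc k ^ C ≤ k ^ l := Nat.pow_le_pow_right (by omega) hl
      _ ≤ PP k l := pp_ge l
      _ ≤ (k - 1) * PP k l := Nat.le_mul_of_pos_left _ (by omega)
  have hM : RR k (k * PP k j) := rr_kpp hk j (hOA j hj)
  have hM1 : RR k (k * PP k j + 1) := rr_pp hk (j + 1)
  have hM' : RR k (k * PP k (j + 1)) := rr_kpp hk (j + 1) (hOA _ (by omega))
  have hM1' : RR k (k * PP k (j + 1) + 1) := rr_pp hk (j + 2)
  have ht : RR k (k * PP k (j + 1) * u) := rr_mul hM' hE'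
  have hs : RR k (k * PP k j * u') := rr_mul hM hE
  have hs1 : RR k (k * PP k j * u' + 1) := rr_mul_add hM1 hE
  -- sizes
  set a := (k ^ i + 2) * k ^ ((i + 1) * C) with ha
  set N := k ^ i + 2 with hN
  set A0 := (k ^ i + 2) * k ^ ((i + 1) * C + 1) with hA0
  have hNa : N ≤ a := Nat.le_mul_of_pos_right _ (by positivity)
  have haA : a ≤ A0 := Nat.mul_le_mul_left _ (Nat.pow_le_pow_right (by omega) (by omega))
  have hdouble : seqA k (a + N) (A0 + N) m ≤ 2 * seqA k a A0 m :=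
    seqA_double (by omega) (by omega) m
  have hA0u : A0 ≤ u := (seqA_ge (by omega) m).trans hu1
  have hst : k * PP k j * u' + 1 ≤ k * PP k (j + 1) * u := by
    have h1 : u' ≤ 2 * u := hu2'.trans (hdouble.trans (Nat.mul_le_mul_left 2 hu1))
    have h2 : k * PP k (j + 1) = k * (k * PP k j) + k := by rw [PP]; ring
    have hu0 : 0 < u := by
      have : 0 < A0 := by positivity
      omega
    calc k * PP k j * u' + 1 ≤ k * PP k j * (2 * u) + 1 := by gcongr
      _ = 2 * (k * PP k j) * u + 1 := by ring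
      _ ≤ k * (k * PP k j) * u + k * u := by
          have : 1 ≤ k * u := Nat.mul_pos (by omega) hu0
          gcongr
      _ = k * PP k (j + 1) * u := by rw [h2]; ring
  have hO : OA (k * PP k (j + 1) + 1) (k * PP k (j + 1) * u) := by
    apply hT _ (by have := pp_pos (k := k) (j + 1); nlinarith)
    have h1 : k * PP k (j + 1) + 1 ≤ k ^ (j + 3) := by
      have h2 : PP k (j + 2) < k ^ (j + 3) := pp_le hk2 (j + 2)
      have e : PP k (j + 2) = k * PP k (j + 1) + 1 := rfl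
      omega
    calc (k * PP k (j + 1) + 1) ^ C ≤ (k ^ (j + 3)) ^ C := Nat.pow_le_pow_left h1 C
      _ = k ^ ((j + 3) * C) := by rw [← pow_mul]
      _ ≤ k ^ ((i + 1) * C) := Nat.pow_le_pow_right (by omega) hij
      _ ≤ a := Nat.le_mul_of_pos_left _ (by omega)
      _ ≤ u := haA.trans hA0u
      _ ≤ _ := Nat.le_mul_of_pos_left _ (Nat.mul_pos (by omega) (pp_pos _))
  rcases hr with hr | hr
  · have := ig_stepE hM' hM1' hO ht hs (by omega)
    have e : k * PP k (j + 1) * (k * PP k (j + 1) * u) + k * PP k j * u' = r := by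
      rw [hr]; ring
    rwa [e] at this
  · have := ig_stepE hM' hM1' hO ht hs1 hst
    have e : k * PP k (j + 1) * (k * PP k (j + 1) * u) + (k * PP k j * u' + 1) = r := by
      rw [hr]; ring
    rwa [e] at this

end Pool.Agent.W855
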