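import Pool.Agent.W855.GDtools2

/-!
# Seeds: affine geometries, the classes `0` and `1` modulo a prime power
-/

set_option autoImplicit false

namespace Pool.Agent.W855

open Finset H108

/-- `1 + k + ... + k ^ j` -/
def PP (k : ℕ) : ℕ → ℕ
  | 0 => 1
  | j + 1 => k * PP k j + 1

theorem pp_eq {k : ℕ} (hk : 1 ≤ k) (j : ℕ) : (k - 1) * PP k j + 1 = k ^ (j + 1) := by
  induction j with
  | zero => simp [PP]; omega
  | succ j ih =>
    rw [PP, pow_succ, ← ih]
    obtain ⟨l, rfl⟩ : ∃ l, k = l + 1 := ⟨k - 1, by omega⟩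
    simp only [Nat.add_sub_cancel]
    ring

theorem pp_ge {k : ℕ} (j : ℕ) : k ^ j ≤ PP k j := by
  induction j with
  | zero => simp [PP]
  | succ j ih =>
    rw [PP, pow_succ, mul_comm]
    have := Nat.mul_le_mul_left k ih
    omega

theorem pp_pos {k : ℕ} (j : ℕ) : 0 < PP k j := by
  cases j <;> simp [PP]

theorem pp_le {k : ℕ} (hk : 2 ≤ k) (j : ℕ) : PP k j < k ^ (j + 1) := by
  rw [← pp_eq (by omega : 1 ≤ k) j]
  have := Nat.mul_le_mul_right (PP k j) (by omega : 1 ≤ k - 1)
  omega

/-- one more column: the slope -/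
theorem oa_of_nice_succ {N m : ℕ} (h : H108.Nice N m) : OA (N + 1) m := by
  obtain ⟨R, _, _, x, hR, hx⟩ := h
  have : IsOA {w : Fin (N + 1) → R | ∃ c d, w = Fin.snoc (fun i => c * x i + d) c} := by
    intro i j hij a b
    induction i using Fin.lastCases with
    | last =>
      induction j using Fin.lastCases with
      | last => exact absurd rfl hij
      | cast j =>
        refine ⟨Fin.snoc (fun i => a * x i + (b - a * x j)) a, ⟨⟨_, _, rfl⟩, ?_, ?_⟩, ?_⟩
        · exact Fin.snoc_last _ _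
        · rw [Fin.snoc_castSucc]; ring
        · rintro w ⟨⟨c, d, rfl⟩, h1, h2⟩
          rw [Fin.snoc_last] at h1
          rw [Fin.snoc_castSucc] at h2
          subst h1
          rw [← h2]
          congr 1
          funext k
          ring
    | cast i =>
      induction j using Fin.lastCases with
      | last =>
        refine ⟨Fin.snoc (fun k => b * x k + (a - b * x i)) b, ⟨⟨_, _, rfl⟩, ?_, ?_⟩, ?_⟩
        · rw [Fin.snoc_castSucc]; ring
        · exact Fin.snoc_last _ _
        · rintro w ⟨⟨c, d, rfl⟩, h1, h2⟩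
          rw [Fin.snoc_last] at h2
          rw [Fin.snoc_castSucc] at h1
          subst h2
          rw [← h1]
          congr 1
          funext k
          ring
      | cast j =>
        have hij' : i ≠ j := fun h => hij (by rw [h])
        obtain ⟨u, hu⟩ := hx i j hij'
        refine ⟨Fin.snoc (fun k => (a - b) * ↑u⁻¹ * x k + (a - (a - b) * ↑u⁻¹ * x i))
          ((a - b) * ↑u⁻¹), ⟨⟨_, _, rfl⟩, ?_, ?_⟩, ?_⟩
        · rw [Fin.snoc_castSucc]; ring
        · rw [Fin.snoc_castSucc]
          have h1 : (↑u⁻¹ : R) * (x i - x j) = 1 := by rw [← hu]; simp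
          linear_combination (-(a - b)) * h1
        · rintro w ⟨⟨c, d, rfl⟩, h1, h2⟩
          rw [Fin.snoc_castSucc] at h1 h2
          have h3 : c = (a - b) * ↑u⁻¹ := by
            have h4 : c * (x i - x j) = a - b := by linear_combination h1 - h2
            rw [← hu] at h4
            rw [← h4, mul_assoc, Units.mul_inv, mul_one]
          rw [← h3]
          congr 1
          funext k
          linear_combination h1
  exact oa_of_isOA this (by rw [Nat.card_eq_fintype_card, hR])

theorem nice_pp {k : ℕ} (hk : IsPrimePow k) (j : ℕ) (hj : j ≠ 0) : H108.Nice k (k ^ j) := by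
  obtain ⟨p, e, hp, he, rfl⟩ := (isPrimePow_nat_iff _).1 hk
  rw [← pow_mul]
  refine H108.nice_prime_pow hp ?_ ?_
  · exact (Nat.mul_pos he (by omega)).ne'
  · exact Nat.pow_le_pow_right hp.pos (Nat.le_mul_of_pos_right _ (by omega))

theorem ag {k : ℕ} (hk : IsPrimePow k) (j : ℕ) : IG {k} 1 (k ^ j) 0 := by
  induction j with
  | zero => simpa using ig_one {k} 1
  | succ j ih =>
    rcases Nat.eq_zero_or_pos j with rfl | hj
    · simpa using ig_block k
    · rw [pow_succ, mul_comm]
      exact ig_product (ig_block k) ih (nice_pp hk j (by omega))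

/-- `R k r`: a Steiner system `S(2, k, (k - 1) r + 1)` exists -/
abbrev RR (k r : ℕ) : Prop := IG {k} (k - 1) r 0

theorem rr_pp {k : ℕ} (hk : IsPrimePow k) (j : ℕ) : RR k (PP k j) := by
  have hk2 : 2 ≤ k := hk.two_le
  apply ig_delete_point hk2
  rw [pp_eq (by omega)]
  exact ag hk (j + 1)

theorem rr_kpp {k : ℕ} (hk : IsPrimePow k) (j : ℕ) (hO : OA k ((k - 1) * PP k j)) :
    RR k (k * PP k j) :=
  ig_fill (ig_of_oa hO) (rr_pp hk j)

theorem steiner_of_rr {k r : ℕ} (hk : 2 ≤ k) (h : RR k r) : IG {k} 1 ((k - 1) * r + 1) 0 := by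
  have h1 : IG {k} 1 (k - 1) 1 := by
    rw [ig_hole_iff, Nat.sub_add_cancel (by omega)]
    exact ig_block k
  have h2 : IG {k} (1 * (k - 1)) r 0 := by rw [one_mul]; exact h
  have h3 := ig_fill h2 h1
  rw [ig_hole_iff, mul_comm] at h3
  exact h3

/-- multiples `c u` and `c u + 1` -/
theorem rr_mul {k c u : ℕ} (hc : RR k c) (hu : IG {k} ((k - 1) * c) u 0) : RR k (c * u) := by
  have := ig_fill hu hc
  rwa [mul_comm] at this

theorem rr_mul_add {k c u : ℕ} (hc : RR k (c + 1)) (hu : IG {k} ((k - 1) * c) u 0) :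
    RR k (c * u + 1) := by
  have := ig_fill hu ((ig_hole_iff _ _ _).2 hc)
  rw [ig_hole_iff, mul_comm] at this
  exact this

section

variable {k w : ℕ}

theorem e_pow (hk : IsPrimePow k) (h0 : IG {k} w k 0) (h1 : IG {k} w (k + 1) 0) (i : ℕ) :
    IG {k} w (k ^ i) 0 := by
  induction i with
  | zero => simpa using ig_one {k} w
  | succ i ih =>
    rcases Nat.eq_zero_or_pos i with rfl | hi
    · simpa using h0
    · have := ig_stepE h0 h1 (oa_of_nice_succ (nice_pp hk i (by omega))) ih
        (ig_empty _ _ _) (Nat.zero_le _)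
      rwa [add_zero, mul_comm, ← pow_succ] at this

theorem hh_pow (hk : IsPrimePow k) (h0 : IG {k} w k 0) (h1 : IG {k} w (k + 1) 0) (i : ℕ)
    (hi : 1 ≤ i) : HH k w (k ^ i) := by
  induction i, hi using Nat.le_induction with
  | base => simpa using hh_base k w
  | succ i hi ih =>
    have := hh_step hk.pos h0 h1 (oa_of_nice_succ (nice_pp hk i (by omega)))
      (e_pow hk h0 h1 i) ih (ig_empty _ _ _) (Nat.zero_le _)
    rwa [add_zero, mul_comm, ← pow_succ] at this

theorem e_pow_one (hk : IsPrimePow k) (h0 : IG {k} w k 0) (h1 : IG {k} w (k + 1) 0) (i : ℕ)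
    (hi : 1 ≤ i) : IG {k} w (k ^ i + 1) 0 := by
  rcases Nat.lt_or_ge i 2 with h | h
  · have : i = 1 := by omega
    subst this
    simpa using h1
  · obtain ⟨j, rfl⟩ : ∃ j, i = j + 1 := ⟨i - 1, by omega⟩
    have := ig_stepE h0 h1 (oa_of_nice_succ (nice_pp hk j (by omega))) (e_pow hk h0 h1 j)
        (ig_one _ _) (Nat.one_le_pow _ _ hk.pos)
    rwa [mul_comm, ← pow_succ] at this

/-- three consecutive values -/
theorem e_pow_two (hk : IsPrimePow k) (h0 : IG {k} w k 0) (h1 : IG {k} w (k + 1) 0) (i : ℕ)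
    (hi : 3 ≤ i) (hO : OA (k + 1) (k ^ i + 1)) (hw : OA k w) :
    IG {k} (w * k) (k ^ i + 2) 0 := by
  obtain ⟨j, rfl⟩ : ∃ j, i = j + 1 := ⟨i - 1, by omega⟩
  have hk2 : 2 ≤ k := hk.two_le
  have hle : k + 1 ≤ k ^ j := by
    calc k + 1 ≤ k ^ 2 := by nlinarith
      _ ≤ k ^ j := Nat.pow_le_pow_right (by omega) (by omega)
  have h2 := hh_step hk.pos h0 h1 (oa_of_nice_succ (nice_pp hk j (by omega)))
    (e_pow hk h0 h1 j) (hh_pow hk h0 h1 j (by omega)) h1 hle
  have h3 := h2.2
  have e : k * k ^ j + (k + 1) - k = k ^ (j + 1) + 1 := by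
    rw [pow_succ, mul_comm (k ^ j) k]; omega
  rw [e] at h3
  exact ig_shift hk.pos h3 hO hw

end

end Pool.Agent.W855
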