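import Pool.Agent.W855.AllLarge
import Pool.Agent.W855.PolyInt

/-!
# Polynomial threshold for the existence of Steiner systems `S(n, k, 2)`, `k` a prime power
-/

set_option autoImplicit false

namespace Pool.Agent.W855

open Finset H108

section

variable {C : ℕ}

/-- the two basic group divisible designs -/
theorem base_two (hT : ∀ N : ℕ, 2 ≤ N → ∀ n : ℕ, N ^ C ≤ n → OA N n)
    {k : ℕ} (hk : IsPrimePow k) {j : ℕ} (hj : C ≤ j) :
    IG {k} ((k - 1) * (k * PP k j)) k 0 ∧ IG {k} ((k - 1) * (k * PP k j)) (k + 1) 0 := by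
  have hk2 : 2 ≤ k := hk.two_le
  set w := (k - 1) * PP k j with hw
  have hPj : k ^ C ≤ PP k j := le_trans (Nat.pow_le_pow_right (by omega) hj) (pp_ge j)
  have hwj : k ^ C ≤ w := by
    refine hPj.trans ?_
    exact Nat.le_mul_of_pos_left _ (by omega)
  have hOw : OA k w := hT k hk2 w hwj
  have hk0 : IG {k} w k 0 := ig_of_oa hOw
  have hk1 : IG {k} w (k + 1) 0 := by
    have h1 : RR k (PP k 1) := rr_pp hk 1
    have h2 := ig_inflateO (hT k hk2 _ hPj) h1
    simpa [PP, zero_mul] using h2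
  have hg : (k - 1) * (k * PP k j) = w * k := by rw [hw]; ring
  rw [hg]
  have hOk : OA k k := by
    have := oa_of_nice (nice_pp hk 1 one_ne_zero)
    rwa [pow_one] at this
  have hup : ∀ v, IG {k} w v 0 → IG {k} (w * k) v 0 := by
    intro v hv
    have := ig_inflateO hOk hv
    rwa [zero_mul] at this
  exact ⟨hup _ hk0, hup _ hk1⟩

/-- intervals at every scale -/
theorem ivl_main (hT : ∀ N : ℕ, 2 ≤ N → ∀ n : ℕ, N ^ C ≤ n → OA N n) (hC : 2 ≤ C)
    {k : ℕ} (hk : IsPrimePow k) (hk3 : 3 ≤ k) {j : ℕ} (hj : C ≤ j) :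
    Ivl k ((k - 1) * (k * PP k j)) ((2 * C + 1) * C + 2) (2 * C + (2 * C + 1) * C + 3) := by
  intro m
  set i := 2 * C with hi
  set l0 := (i + 1) * C with hl0
  set Nn := k ^ i + 2 with hNn
  set a := Nn * k ^ l0 with ha
  set A0 := Nn * k ^ (l0 + 1) with hA0
  have hNn1 : Nn ≤ k ^ (i + 1) := by
    have h2i : 2 ≤ k ^ i := by
      calc 2 ≤ k := by omega
        _ = k ^ 1 := (pow_one k).symm
        _ ≤ k ^ i := Nat.pow_le_pow_right (by omega) (by omega)
    rw [hNn, pow_succ]
    nlinarith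
  have hNa : Nn ≤ a := Nat.le_mul_of_pos_right _ (by positivity)
  have hNA : Nn ≤ A0 := Nat.le_mul_of_pos_right _ (by positivity)
  have haA : a ≤ A0 := Nat.mul_le_mul_left _ (Nat.pow_le_pow_right (by omega) (by omega))
  have heq := seqA_eq (k := k) (a := a) (A0 := A0) (by omega) m
  have hkm : 1 ≤ k ^ m := Nat.one_le_pow _ _ (by omega)
  have hlow : k ^ m * A0 ≤ seqA k a A0 m := by
    have h1 : a ≤ k ^ m * a := Nat.le_mul_of_pos_left _ hkm
    have h2 : (k - 1) * (k ^ m * A0) ≤ (k - 1) * seqA k a A0 m := by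
      have e : k ^ m * ((k - 1) * A0 + a) = (k - 1) * (k ^ m * A0) + k ^ m * a := by ring
      omega
    exact Nat.le_of_mul_le_mul_left h2 (by omega)
  have hupp : seqA k a A0 m ≤ k ^ m * (2 * A0) := by
    have h2 : (k - 1) * seqA k a A0 m ≤ (k - 1) * (k ^ m * (2 * A0)) := by
      have e : k ^ m * ((k - 1) * A0 + a) = (k - 1) * (k ^ m * A0) + k ^ m * a := by ring
      have e2 : (k - 1) * (k ^ m * (2 * A0)) =
          (k - 1) * (k ^ m * A0) + (k - 1) * (k ^ m * A0) := by ring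
      have h3 : k ^ m * a ≤ (k - 1) * (k ^ m * A0) := by
        calc k ^ m * a ≤ k ^ m * A0 := Nat.mul_le_mul_left _ haA
          _ ≤ _ := Nat.le_mul_of_pos_left _ (by omega)
      omega
    exact Nat.le_of_mul_le_mul_left h2 (by omega)
  have hdiff : seqA k a A0 m + k ^ m * Nn ≤ seqA k (a + Nn) (A0 + Nn) m := seqA_diff rfl m
  have hdouble : seqA k (a + Nn) (A0 + Nn) m ≤ 2 * seqA k a A0 m :=
    seqA_double (by omega) (by omega) m
  have hA0pos : 0 < A0 := by positivity
  refine ⟨seqA k a A0 m, seqA k (a + Nn) (A0 + Nn) m, ?_, ?_, by omega, hdouble, ?_, ?_⟩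
  · exact le_trans (Nat.le_mul_of_pos_right _ hA0pos) hlow
  · refine hupp.trans ?_
    calc k ^ m * (2 * A0) ≤ k ^ m * (k * (k ^ (i + 1) * k ^ (l0 + 1))) := by
          apply Nat.mul_le_mul_left
          apply Nat.mul_le_mul (by omega)
          exact Nat.mul_le_mul_right _ hNn1
      _ = k ^ (m + (i + l0 + 3)) := by
          rw [← pow_add, ← pow_succ', ← pow_add]
          congr 1
          omega
  · calc seqA k a A0 m ≤ k ^ m * (2 * A0) := hupp
      _ ≤ k ^ m * (k * A0) := by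
          apply Nat.mul_le_mul_left
          apply Nat.mul_le_mul_right
          omega
      _ = k ^ (l0 + 2) * (k ^ m * Nn) := by
          rw [hA0, pow_succ k (l0 + 1)]
          ring
      _ ≤ _ := Nat.mul_le_mul_left _ (by omega)
  · intro u hu1 hu2
    exact interval_main hT hC hk (i := i) le_rfl hj m u hu1 hu2

/-- the two residue classes, for all large arguments -/
theorem rr_classes' (hT : ∀ N : ℕ, 2 ≤ N → ∀ n : ℕ, N ^ C ≤ n → OA N n)
    {k : ℕ} (hk : IsPrimePow k) {j U : ℕ} (hj : C ≤ j)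
    (hE : ∀ j', C ≤ j' → ∀ u, U ≤ u → IG {k} ((k - 1) * (k * PP k j')) u 0)
    (hU : k ^ ((j + 3) * C) ≤ U) {u u' : ℕ} (hu : U ≤ u) (hu' : U ≤ u') (huu : u' ≤ u) (r : ℕ)
    (hr : r = k * (k * PP k (j + 1) ^ 2 * u + PP k j * u') ∨
      r = k * (k * PP k (j + 1) ^ 2 * u + PP k j * u') + 1) : RR k r := by
  have hk2 : 2 ≤ k := hk.two_le
  have hE1 := hE j hj u' hu'
  have hE2 := hE (j + 1) (by omega) u hu
  have hOA : ∀ l, C ≤ l → OA k ((k - 1) * PP k l) := by
    intro l hl
    apply hT k hk2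
    calc k ^ C ≤ k ^ l := Nat.pow_le_pow_right (by omega) hl
      _ ≤ PP k l := pp_ge l
      _ ≤ (k - 1) * PP k l := Nat.le_mul_of_pos_left _ (by omega)
  have hM : RR k (k * PP k j) := rr_kpp hk j (hOA j hj)
  have hM1 : RR k (k * PP k j + 1) := rr_pp hk (j + 1)
  have hM' : RR k (k * PP k (j + 1)) := rr_kpp hk (j + 1) (hOA _ (by omega))
  have hM1' : RR k (k * PP k (j + 1) + 1) := rr_pp hk (j + 2)
  have ht : RR k (k * PP k (j + 1) * u) := rr_mul hM' hE2
  have hs : RR k (k * PP k j * u') := rr_mul hM hE1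
  have hs1 : RR k (k * PP k j * u' + 1) := rr_mul_add hM1 hE1
  have hu0 : 0 < u := by
    have : 0 < k ^ ((j + 3) * C) := by positivity
    omega
  have hst : k * PP k j * u' + 1 ≤ k * PP k (j + 1) * u := by
    have h2 : k * PP k (j + 1) = k * (k * PP k j) + k := by rw [PP]; ring
    calc k * PP k j * u' + 1 ≤ k * PP k j * u + 1 := by gcongr
      _ ≤ k * (k * PP k j) * u + k * u := by
          have h3 : 1 ≤ k * u := Nat.mul_pos (by omega) hu0
          have h4 : k * PP k j * u ≤ k * (k * PP k j) * u := by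
            apply Nat.mul_le_mul_right
            exact Nat.le_mul_of_pos_left _ (by omega)
          omega
      _ = k * PP k (j + 1) * u := by rw [h2]; ring
  have hO : OA (k * PP k (j + 1) + 1) (k * PP k (j + 1) * u) := by
    apply hT _ (by have := pp_pos (k := k) (j + 1); nlinarith)
    have h1 : k * PP k (j + 1) + 1 ≤ k ^ (j + 3) := by
      have h2 : PP k (j + 2) < k ^ (j + 3) := pp_le hk2 (j + 2)
      have e : PP k (j + 2) = k * PP k (j + 1) + 1 := rfl
      omega
    calc (k * PP k (j + 1) + 1) ^ C ≤ (k ^ (j + 3)) ^ C := Nat.pow_le_pow_left h1 C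
      _ = k ^ ((j + 3) * C) := by rw [← pow_mul]
      _ ≤ U := hU
      _ ≤ u := hu
      _ ≤ _ := Nat.le_mul_of_pos_left _ (Nat.mul_pos (by omega) (pp_pos _))
  rcases hr with hr | hr
  · have := ig_stepE hM' hM1' hO ht hs (by omega)
    have e : k * PP k (j + 1) * (k * PP k (j + 1) * u) + k * PP k j * u' = r := by
      rw [hr]; ring
    rwa [e] at this
  · have := ig_stepE hM' hM1' hO ht hs1 hst
    have e : k * PP k (j + 1) * (k * PP k (j + 1) * u) + (k * PP k j * u' + 1) = r := by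
      rw [hr]; ring
    rwa [e] at this

end

/-- representation of large numbers by `G u + H u'` -/
theorem repr_large {G H A R : ℕ} (hG : 0 < G) (hcop : Nat.Coprime H G)
    (h1 : (G + H) * (A + G) ≤ R) :
    ∃ u u', A ≤ u' ∧ u' ≤ u ∧ R = G * u + H * u' := by
  have : NeZero G := ⟨hG.ne'⟩
  obtain ⟨v, hv1, hv2⟩ : ∃ v, v < G ∧ ((H * (A + v) : ℕ) : ZMod G) = (R : ZMod G) := by
    refine ⟨((R : ZMod G) * (H : ZMod G)⁻¹ - (A : ZMod G)).val, ZMod.val_lt _, ?_⟩
    have h3 := ZMod.coe_mul_inv_eq_one H hcop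
    push_cast
    rw [ZMod.natCast_zmod_val]
    calc (H : ZMod G) * ((A : ZMod G) + ((R : ZMod G) * (H : ZMod G)⁻¹ - (A : ZMod G)))
        = (R : ZMod G) * ((H : ZMod G) * (H : ZMod G)⁻¹) := by ring
      _ = R := by rw [h3, mul_one]
  have hle : H * (A + v) ≤ H * (A + G) := Nat.mul_le_mul_left H (by omega)
  have e1 : (G + H) * (A + G) = G * (A + G) + H * (A + G) := by ring
  have hleR : H * (A + v) ≤ R := by omega
  have hdvd : G ∣ R - H * (A + v) := by
    rw [← Nat.modEq_iff_dvd' hleR]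
    exact (ZMod.natCast_eq_natCast_iff _ _ _).1 hv2
  obtain ⟨u, hu⟩ := hdvd
  refine ⟨u, A + v, by omega, ?_, by omega⟩
  have h5 : G * (A + G) ≤ G * u := by omega
  have := Nat.le_of_mul_le_mul_left h5 hG
  omega

/-- polynomial threshold -/
theorem threshold_main : ∃ C : ℕ, ∀ k : ℕ, IsPrimePow k → 3 ≤ k → ∀ n : ℕ, k ^ C ≤ n →
    Adm k n → IG {k} 1 n 0 := by
  obtain ⟨C, hC, hT⟩ := td_gen
  obtain ⟨c, hc⟩ := all_large (e := (2 * C + 1) * C + 2) (f := 2 * C + (2 * C + 1) * C + 3) hT hC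
  set c' := c + (C + 3) * C with hc'
  refine ⟨(2 * C + 6) + (c' + (2 * C + 6)) + 4, ?_⟩
  intro k hk hk3 n hn hadm
  have hE : ∀ j', C ≤ j' → ∀ u, k ^ c' ≤ u → IG {k} ((k - 1) * (k * PP k j')) u 0 := by
    intro j' hj' u hu
    obtain ⟨h0, h1⟩ := base_two hT hk hj'
    refine hc k hk3 _ (ivl_main hT hC hk hk3 hj') h0 h1 u (le_trans ?_ hu)
    exact Nat.pow_le_pow_right (by omega) (by omega)
  set G := k * PP k (C + 1) ^ 2 with hG
  set H := PP k C with hH
  have hG0 : 0 < G := by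
    have := pp_pos (k := k) (C + 1)
    positivity
  have hP'lt : PP k (C + 1) < k ^ (C + 2) := pp_le (by omega) (C + 1)
  have hPlt : PP k C < k ^ (C + 1) := pp_le (by omega) C
  have hGle : G ≤ k ^ (2 * C + 5) := by
    calc G ≤ k * (k ^ (C + 2)) ^ 2 := by rw [hG]; gcongr
      _ = k ^ (2 * C + 5) := by
          rw [← pow_mul, ← pow_succ']; congr 1; omega
  have hHle : H ≤ k ^ (2 * C + 5) := by
    refine hPlt.le.trans (Nat.pow_le_pow_right (by omega) (by omega))
  obtain ⟨R, r, hr, hnr⟩ := two_classes hk hadm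
  have hR : (G + H) * (k ^ c' + G) ≤ R := by
    by_contra hcon
    push Not at hcon
    have h1 : (G + H) * (k ^ c' + G) ≤ k ^ (2 * C + 6) * k ^ (c' + (2 * C + 6)) := by
      apply Nat.mul_le_mul
      · rw [pow_succ]
        have : k ^ (2 * C + 5) * 2 ≤ k ^ (2 * C + 5) * k := Nat.mul_le_mul_left _ (by omega)
        omega
      · have h3 : k ^ c' ≤ k ^ (c' + (2 * C + 5)) := Nat.pow_le_pow_right (by omega) (by omega)
        have h4 : k ^ (2 * C + 5) ≤ k ^ (c' + (2 * C + 5)) :=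
          Nat.pow_le_pow_right (by omega) (by omega)
        have h5 : k ^ (c' + (2 * C + 6)) = k ^ (c' + (2 * C + 5)) * k := by
          rw [← pow_succ]; congr 1
        have : k ^ (c' + (2 * C + 5)) * 2 ≤ k ^ (c' + (2 * C + 5)) * k :=
          Nat.mul_le_mul_left _ (by omega)
        omega
    rw [← pow_add] at h1
    set X := k ^ ((2 * C + 6) + (c' + (2 * C + 6))) with hX
    have h6 : k ^ ((2 * C + 6) + (c' + (2 * C + 6)) + 4) = X * k ^ 4 := by rw [pow_add]
    rw [h6] at hn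
    have hXpos : 0 < X := by positivity
    have h7 : r ≤ k * X + 1 := by
      have : k * R ≤ k * X := Nat.mul_le_mul_left k (by omega)
      omega
    have h8 : n ≤ k * (k * X + 1) + 1 := by
      rw [hnr]
      have : (k - 1) * r ≤ k * (k * X + 1) := Nat.mul_le_mul (by omega) h7
      omega
    have h9 : k * (k * X + 1) + 1 < X * k ^ 4 := by
      have e : X * k ^ 4 = k * k * X * (k * k) := by ring
      rw [e]
      have h10 : k ≤ k * k * X := by nlinarith
      have h11 : 9 ≤ k * k := by nlinarith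
      nlinarith
    omega
  obtain ⟨u, u', hu', huu, hRu⟩ := repr_large hG0 (Nat.Coprime.mul_right (coprime_pp C)
      (Nat.Coprime.pow_right 2 (coprime_pp_succ C))) hR
  have hfin : RR k r := rr_classes' hT hk (j := C) (U := k ^ c') le_rfl hE
    (Nat.pow_le_pow_right (by omega) (by omega)) (hu'.trans huu) hu' huu r (by
      rw [← hG, ← hH, ← hRu]
      exact hr)
  rw [hnr]
  exact steiner_of_rr (by omega) hfin

end Pool.Agent.W855
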